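import Mathlib

/-!
# A windowed Behrend inequality via Turán–Kubilius

For every `c > 0` there is `C` such that a primitive set `A ⊆ (m, n]` has
`∑_{a ∈ A} 1/a ≤ c ∑_{m < v ≤ n} 1/v + C`.
-/

namespace Pool.Agent.Q52.Behrend

/-- primitive sets of naturals -/
def Prim (A : Finset ℕ) : Prop := ∀ a ∈ A, ∀ b ∈ A, a ∣ b → a = b

/-- harmonic sum over `(m, n]`. -/
noncomputable def H (m n : ℕ) : ℝ := ∑ v ∈ Finset.Ioc m n, 1 / (v : ℝ)

theorem H_nonneg (m n : ℕ) : 0 ≤ H m n := by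
  unfold H; positivity

theorem H_add {a b c : ℕ} (h1 : a ≤ b) (h2 : b ≤ c) : H a b + H b c = H a c := by
  unfold H
  rw [← Finset.sum_union]
  · congr 1
    rw [Finset.Ioc_union_Ioc_eq_Ioc h1 h2]
  · rw [Finset.disjoint_left]
    intro x hx hy
    rw [Finset.mem_Ioc] at hx hy
    omega

/-- multiples of `p` in `(m, n]`. -/
noncomputable def Hd (p m n : ℕ) : ℝ :=
  ∑ v ∈ (Finset.Ioc m n).filter (fun v => p ∣ v), 1 / (v : ℝ)

theorem Hd_zero (p n : ℕ) (hp : 0 < p) : Hd p 0 n = 1 / p * H 0 (n / p) := by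
  unfold Hd H
  rw [Finset.mul_sum]
  symm
  apply Finset.sum_bij (fun k _ => p * k)
  · intro k hk
    rw [Finset.mem_Ioc] at hk
    rw [Finset.mem_filter, Finset.mem_Ioc]
    have h1 : p * k ≤ n := (Nat.mul_le_mul_left p hk.2).trans (Nat.mul_div_le n p)
    exact ⟨⟨Nat.mul_pos hp hk.1, h1⟩, dvd_mul_right _ _⟩
  · intro a _ b _ hab
    exact Nat.eq_of_mul_eq_mul_left hp hab
  · intro v hv
    rw [Finset.mem_filter, Finset.mem_Ioc] at hv
    obtain ⟨⟨h1, h2⟩, k, rfl⟩ := hv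
    refine ⟨k, ?_, rfl⟩
    rw [Finset.mem_Ioc]
    refine ⟨Nat.pos_of_ne_zero (by rintro rfl; simp at h1), ?_⟩
    rw [Nat.le_div_iff_mul_le hp, mul_comm]; exact h2
  · intro k hk
    push_cast
    rw [one_div_mul_one_div]

theorem H_tail_le (p n : ℕ) (hp : 0 < p) : H (n / p) n ≤ p := by
  unfold H
  have h1 : ∀ v ∈ Finset.Ioc (n / p) n, 1 / (v : ℝ) ≤ p / n := by
    intro v hv
    rw [Finset.mem_Ioc] at hv
    have hv0 : 0 < v := lt_of_le_of_lt (Nat.zero_le _) hv.1
    have hn0 : 0 < n := lt_of_lt_of_le hv0 hv.2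
    have h2 : n < v * p := by
      have := (Nat.div_lt_iff_lt_mul hp).1 hv.1
      exact this
    have h3 : (n : ℝ) ≤ v * p := by exact_mod_cast h2.le
    have hv0' : (0 : ℝ) < v := by exact_mod_cast hv0
    have hn0' : (0 : ℝ) < n := by exact_mod_cast hn0
    rw [div_le_div_iff₀ hv0' hn0']
    linarith
  refine (Finset.sum_le_sum h1).trans ?_
  rw [Finset.sum_const, nsmul_eq_mul, Nat.card_Ioc]
  by_cases hn : n = 0
  · subst hn
    simp
  · have hn0' : (0 : ℝ) < n := by exact_mod_cast Nat.pos_of_ne_zero hn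
    have h4 : ((n - n / p : ℕ) : ℝ) ≤ n := by exact_mod_cast Nat.sub_le _ _
    calc ((n - n / p : ℕ) : ℝ) * (p / n) ≤ n * (p / n) := by gcongr
      _ = p := by field_simp

theorem Hd_sub (p m n : ℕ) (hmn : m ≤ n) : Hd p m n = Hd p 0 n - Hd p 0 m := by
  unfold Hd
  rw [eq_sub_iff_add_eq, add_comm, ← Finset.sum_union]
  · congr 1
    rw [← Finset.filter_union, Finset.Ioc_union_Ioc_eq_Ioc (Nat.zero_le _) hmn]
  · rw [Finset.disjoint_left]
    intro x hx hy
    rw [Finset.mem_filter, Finset.mem_Ioc] at hx hy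
    omega

/-- `Hd p m n = H m n / p + O(1)`. -/
theorem Hd_close (p m n : ℕ) (hp : 0 < p) (hmn : m ≤ n) :
    1 / p * H m n - 1 ≤ Hd p m n ∧ Hd p m n ≤ 1 / p * H m n + 1 := by
  have hp' : (0 : ℝ) < p := by exact_mod_cast hp
  rw [Hd_sub p m n hmn, Hd_zero p n hp, Hd_zero p m hp]
  have e1 := H_add (Nat.zero_le (n / p)) (Nat.div_le_self n p)
  have e2 := H_add (Nat.zero_le (m / p)) (Nat.div_le_self m p)
  have e3 := H_add (Nat.zero_le m) hmn
  have b1 := H_tail_le p n hp
  have b2 := H_tail_le p m hp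
  have b3 := H_nonneg (n / p) n
  have b4 := H_nonneg (m / p) m
  have e4 : H 0 (n / p) - H 0 (m / p) = H m n - H (n / p) n + H (m / p) m := by linarith
  have h5 : 1 / (p : ℝ) * H 0 (n / p) - 1 / p * H 0 (m / p) =
      1 / p * H m n - 1 / p * H (n / p) n + 1 / p * H (m / p) m := by
    rw [← mul_sub, e4]; ring
  have c1 : 1 / (p : ℝ) * H (n / p) n ≤ 1 := by
    calc 1 / (p : ℝ) * H (n / p) n ≤ 1 / p * p := by gcongr
      _ = 1 := by field_simp
  have c2 : 1 / (p : ℝ) * H (m / p) m ≤ 1 := by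
    calc 1 / (p : ℝ) * H (m / p) m ≤ 1 / p * p := by gcongr
      _ = 1 := by field_simp
  have c3 : 0 ≤ 1 / (p : ℝ) * H (n / p) n := by positivity
  have c4 : 0 ≤ 1 / (p : ℝ) * H (m / p) m := by positivity
  constructor <;> linarith

/-- number of primes of `P` dividing `y`. -/
noncomputable def om (P : Finset ℕ) (y : ℕ) : ℝ := ∑ p ∈ P, if p ∣ y then (1 : ℝ) else 0

/-- sum of reciprocals. -/
noncomputable def R (P : Finset ℕ) : ℝ := ∑ p ∈ P, 1 / (p : ℝ)

theorem om_nonneg (P : Finset ℕ) (y : ℕ) : 0 ≤ om P y := by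
  unfold om
  apply Finset.sum_nonneg
  intro p _
  split_ifs <;> norm_num

theorem om_le (P : Finset ℕ) (y : ℕ) : om P y ≤ P.card := by
  unfold om
  calc ∑ p ∈ P, (if p ∣ y then (1 : ℝ) else 0) ≤ ∑ p ∈ P, 1 := by
        apply Finset.sum_le_sum
        intro p _
        split_ifs <;> norm_num
    _ = P.card := by simp

theorem sum_om (P : Finset ℕ) (T : Finset ℕ) :
    ∑ y ∈ T, om P y * (1 / (y : ℝ)) = ∑ p ∈ P, ∑ y ∈ T.filter (fun y => p ∣ y), 1 / (y : ℝ) := by
  unfold om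
  simp_rw [Finset.sum_mul]
  rw [Finset.sum_comm]
  apply Finset.sum_congr rfl
  intro p _
  rw [Finset.sum_filter]
  apply Finset.sum_congr rfl
  intro y _
  split_ifs <;> simp

theorem sum_om_lower (P : Finset ℕ) (hP : ∀ p ∈ P, 0 < p) (m n : ℕ) (hmn : m ≤ n) :
    R P * H m n - P.card ≤ ∑ y ∈ Finset.Ioc m n, om P y * (1 / (y : ℝ)) := by
  rw [sum_om]
  have : ∑ p ∈ P, (1 / (p : ℝ) * H m n - 1) ≤
      ∑ p ∈ P, ∑ y ∈ (Finset.Ioc m n).filter (fun y => p ∣ y), 1 / (y : ℝ) :=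
    Finset.sum_le_sum fun p hp => (Hd_close p m n (hP p hp) hmn).1
  refine le_trans (le_of_eq ?_) this
  rw [Finset.sum_sub_distrib, ← Finset.sum_mul]
  unfold R
  simp

theorem sum_om_sq (P : Finset ℕ) (hP : ∀ p ∈ P, p.Prime) (m n : ℕ) (hmn : m ≤ n) :
    ∑ y ∈ Finset.Ioc m n, om P y ^ 2 * (1 / (y : ℝ)) ≤
      R P ^ 2 * H m n + R P * H m n + P.card ^ 2 := by
  have h1 : ∀ y : ℕ, om P y ^ 2 = ∑ p ∈ P, ∑ q ∈ P, if p ∣ y ∧ q ∣ y then (1 : ℝ) else 0 := by
    intro y
    unfold om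
    rw [pow_two, Finset.sum_mul_sum]
    apply Finset.sum_congr rfl
    intro p _
    apply Finset.sum_congr rfl
    intro q _
    by_cases h1 : p ∣ y <;> by_cases h2 : q ∣ y <;> simp [h1, h2]
  have h2 : ∑ y ∈ Finset.Ioc m n, om P y ^ 2 * (1 / (y : ℝ)) =
      ∑ p ∈ P, ∑ q ∈ P, ∑ y ∈ (Finset.Ioc m n).filter (fun y => p ∣ y ∧ q ∣ y), 1 / (y : ℝ) := by
    simp_rw [h1, Finset.sum_mul]
    rw [Finset.sum_comm]
    apply Finset.sum_congr rfl
    intro p _
    rw [Finset.sum_comm]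
    apply Finset.sum_congr rfl
    intro q _
    rw [Finset.sum_filter]
    apply Finset.sum_congr rfl
    intro y _
    split_ifs <;> simp
  have hH := H_nonneg m n
  have h3 : ∀ p ∈ P, ∀ q ∈ P, ∑ y ∈ (Finset.Ioc m n).filter (fun y => p ∣ y ∧ q ∣ y), 1 / (y : ℝ) ≤
      1 / (p : ℝ) * (1 / (q : ℝ)) * H m n + (if p = q then 1 / (p : ℝ) * H m n else 0) + 1 := by
    intro p hp q hq
    have hp0 := (hP p hp).pos
    have hq0 := (hP q hq).pos
    by_cases hpq : p = q
    · subst hpq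
      rw [if_pos rfl]
      have h4 := (Hd_close p m n hp0 hmn).2
      have h5 : (Finset.Ioc m n).filter (fun y => p ∣ y ∧ p ∣ y) =
          (Finset.Ioc m n).filter (fun y => p ∣ y) := by
        ext y; simp
      rw [h5]
      have h6 : 0 ≤ 1 / (p : ℝ) * (1 / (p : ℝ)) * H m n := by positivity
      unfold Hd at h4
      linarith
    · rw [if_neg hpq]
      have h4 := (Hd_close (p * q) m n (Nat.mul_pos hp0 hq0) hmn).2
      have hcop : Nat.Coprime p q := (Nat.coprime_primes (hP p hp) (hP q hq)).2 hpq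
      have h5 : (Finset.Ioc m n).filter (fun y => p ∣ y ∧ q ∣ y) =
          (Finset.Ioc m n).filter (fun y => p * q ∣ y) := by
        ext y
        simp only [Finset.mem_filter, and_congr_right_iff]
        intro _
        exact ⟨fun h => hcop.mul_dvd_of_dvd_of_dvd h.1 h.2,
          fun h => ⟨(dvd_mul_right p q).trans h, (dvd_mul_left q p).trans h⟩⟩
      rw [h5]
      unfold Hd at h4
      push_cast at h4
      rw [one_div_mul_one_div]
      linarith
  rw [h2]
  refine (Finset.sum_le_sum fun p hp => Finset.sum_le_sum fun q hq => h3 p hp q hq).trans ?_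
  have h6 : ∑ p ∈ P, ∑ q ∈ P, (1 / (p : ℝ) * (1 / (q : ℝ)) * H m n +
      (if p = q then 1 / (p : ℝ) * H m n else 0) + 1) =
      R P ^ 2 * H m n + R P * H m n + P.card ^ 2 := by
    simp_rw [Finset.sum_add_distrib]
    have e1 : ∑ p ∈ P, ∑ q ∈ P, 1 / (p : ℝ) * (1 / (q : ℝ)) * H m n = R P ^ 2 * H m n := by
      unfold R
      rw [pow_two, Finset.sum_mul_sum, Finset.sum_mul]
      apply Finset.sum_congr rfl
      intro p _
      rw [Finset.sum_mul]
    have e2 : ∑ p ∈ P, ∑ q ∈ P, (if p = q then 1 / (p : ℝ) * H m n else 0) = R P * H m n := by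
      unfold R
      rw [Finset.sum_mul]
      apply Finset.sum_congr rfl
      intro p hp
      rw [Finset.sum_ite_eq P p, if_pos hp]
    rw [e1, e2]
    simp [pow_two]
  exact h6.le

theorem variance (P : Finset ℕ) (hP : ∀ p ∈ P, p.Prime) (m n : ℕ) (hmn : m ≤ n) :
    ∑ y ∈ Finset.Ioc m n, (om P y - R P) ^ 2 * (1 / (y : ℝ)) ≤
      R P * H m n + (P.card ^ 2 + 2 * R P * P.card) := by
  have h1 := sum_om_sq P hP m n hmn
  have h2 := sum_om_lower P (fun p hp => (hP p hp).pos) m n hmn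
  have hR : 0 ≤ R P := by unfold R; positivity
  have h3 : ∑ y ∈ Finset.Ioc m n, (om P y - R P) ^ 2 * (1 / (y : ℝ)) =
      ∑ y ∈ Finset.Ioc m n, om P y ^ 2 * (1 / (y : ℝ)) -
        2 * R P * ∑ y ∈ Finset.Ioc m n, om P y * (1 / (y : ℝ)) + R P ^ 2 * H m n := by
    unfold H
    rw [Finset.mul_sum, Finset.mul_sum, ← Finset.sum_sub_distrib, ← Finset.sum_add_distrib]
    apply Finset.sum_congr rfl
    intro y _
    ring
  rw [h3]
  nlinarith

theorem abs_dev (P : Finset ℕ) (hP : ∀ p ∈ P, p.Prime) (hR : 0 < R P) (m n : ℕ) (hmn : m ≤ n) :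
    ∑ y ∈ Finset.Ioc m n, |om P y - R P| * (1 / (y : ℝ)) ≤
      √(R P) * H m n + (P.card ^ 2 + 2 * R P * P.card) / (2 * √(R P)) := by
  have hl : 0 < √(R P) := Real.sqrt_pos.2 hR
  have h1 : ∀ x : ℝ, |x| ≤ x ^ 2 / (2 * √(R P)) + √(R P) / 2 := by
    intro x
    have h2 : 0 ≤ (|x| - √(R P)) ^ 2 := sq_nonneg _
    have h3 : |x| ^ 2 = x ^ 2 := sq_abs x
    rw [div_add_div _ _ (by positivity) (by positivity), le_div_iff₀ (by positivity)]
    nlinarith
  have h2 := variance P hP m n hmn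
  have hsq : √(R P) * √(R P) = R P := Real.mul_self_sqrt hR.le
  calc ∑ y ∈ Finset.Ioc m n, |om P y - R P| * (1 / (y : ℝ))
      ≤ ∑ y ∈ Finset.Ioc m n, ((om P y - R P) ^ 2 / (2 * √(R P)) + √(R P) / 2) * (1 / (y : ℝ)) := by
        apply Finset.sum_le_sum
        intro y _
        exact mul_le_mul_of_nonneg_right (h1 _) (by positivity)
    _ = (∑ y ∈ Finset.Ioc m n, (om P y - R P) ^ 2 * (1 / (y : ℝ))) / (2 * √(R P)) +
          √(R P) / 2 * H m n := by
        unfold H
        rw [Finset.sum_div, Finset.mul_sum, ← Finset.sum_add_distrib]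
        apply Finset.sum_congr rfl
        intro y _
        ring
    _ ≤ (R P * H m n + (P.card ^ 2 + 2 * R P * P.card)) / (2 * √(R P)) + √(R P) / 2 * H m n := by
        gcongr
    _ = √(R P) * H m n + (P.card ^ 2 + 2 * R P * P.card) / (2 * √(R P)) := by
        rw [add_div]
        have : R P * H m n / (2 * √(R P)) = √(R P) / 2 * H m n := by
          rw [div_eq_iff (by positivity)]
          linear_combination (-H m n) * hsq
        rw [this]
        ring

/-- The basic inequality. -/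
theorem basic (P : Finset ℕ) (hP : ∀ p ∈ P, p.Prime) (z : ℕ) (hz : ∀ p ∈ P, p ≤ z) (m n : ℕ)
    (hmn : m ≤ n) (A : Finset ℕ) (hA : A ⊆ Finset.Ioc m n) (hprim : Prim A) :
    R P * ∑ a ∈ A, 1 / (a : ℝ) ≤
      ∑ y ∈ Finset.Ioc m n, |om P y - R P| * (1 / (y : ℝ)) + P.card * z := by
  classical
  have hR0 : 0 ≤ R P := by unfold R; positivity
  -- multiples and proper multiples
  let U : ℕ → Prop := fun v => ∃ a ∈ A, a ∣ v
  let U' : ℕ → Prop := fun v => ∃ a ∈ A, a ∣ v ∧ a ≠ v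
  have hsplit : ∑ v ∈ (Finset.Ioc m n).filter U, 1 / (v : ℝ) =
      ∑ v ∈ (Finset.Ioc m n).filter U', 1 / (v : ℝ) + ∑ a ∈ A, 1 / (a : ℝ) := by
    rw [← Finset.sum_union]
    · congr 1
      ext v
      simp only [Finset.mem_union, Finset.mem_filter]
      constructor
      · rintro ⟨hv, a, ha, hav⟩
        by_cases h : a = v
        · right; rw [← h]; exact ha
        · left; exact ⟨hv, a, ha, hav, h⟩
      · rintro (⟨hv, a, ha, hav, _⟩ | hv)
        · exact ⟨hv, a, ha, hav⟩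
        · exact ⟨hA hv, v, hv, dvd_rfl⟩
    · rw [Finset.disjoint_left]
      intro v hv hvA
      obtain ⟨a, ha, hav, hne⟩ := (Finset.mem_filter.1 hv).2
      exact hne (hprim a ha v hvA hav)
  -- the injection
  have hinj : R P * ∑ v ∈ (Finset.Ioc m n).filter U, 1 / (v : ℝ) ≤
      ∑ y ∈ (Finset.Ioc m (n * z)).filter U', om P y * (1 / (y : ℝ)) := by
    rw [sum_om]
    unfold R
    rw [Finset.sum_mul]
    apply Finset.sum_le_sum
    intro p hp
    have hp0 := (hP p hp).pos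
    have hp2 := (hP p hp).two_le
    rw [Finset.mul_sum]
    have h1 : ∑ v ∈ (Finset.Ioc m n).filter U, 1 / (p : ℝ) * (1 / (v : ℝ)) =
        ∑ y ∈ ((Finset.Ioc m n).filter U).image (fun v => p * v), 1 / (y : ℝ) := by
      rw [Finset.sum_image (fun a _ b _ hab => Nat.eq_of_mul_eq_mul_left hp0 hab)]
      apply Finset.sum_congr rfl
      intro v _
      push_cast
      rw [one_div_mul_one_div]
    rw [h1]
    apply Finset.sum_le_sum_of_subset_of_nonneg
    · intro y hy
      rw [Finset.mem_image] at hy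
      obtain ⟨v, hv, rfl⟩ := hy
      rw [Finset.mem_filter, Finset.mem_Ioc] at hv
      obtain ⟨⟨hv1, hv2⟩, a, ha, hav⟩ := hv
      rw [Finset.mem_filter, Finset.mem_filter, Finset.mem_Ioc]
      have hv0 : 0 < v := by omega
      refine ⟨⟨⟨?_, ?_⟩, a, ha, hav.mul_left p, ?_⟩, dvd_mul_right _ _⟩
      · nlinarith
      · rw [mul_comm n z]; exact Nat.mul_le_mul (hz p hp) hv2
      · have : a ≤ v := Nat.le_of_dvd hv0 hav
        nlinarith
    · intro y _ _
      positivity
  have hcut : ∑ y ∈ (Finset.Ioc m (n * z)).filter U', om P y * (1 / (y : ℝ)) ≤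
      ∑ y ∈ (Finset.Ioc m n).filter U', om P y * (1 / (y : ℝ)) + P.card * z := by
    have h1 : (Finset.Ioc m (n * z)).filter U' ⊆
        (Finset.Ioc m n).filter U' ∪ Finset.Ioc n (n * z) := by
      intro y hy
      rw [Finset.mem_filter, Finset.mem_Ioc] at hy
      rw [Finset.mem_union, Finset.mem_filter, Finset.mem_Ioc, Finset.mem_Ioc]
      by_cases h : y ≤ n
      · left; exact ⟨⟨hy.1.1, h⟩, hy.2⟩
      · right; exact ⟨by omega, hy.1.2⟩
    have h2 : ∑ y ∈ (Finset.Ioc m (n * z)).filter U', om P y * (1 / (y : ℝ)) ≤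
        ∑ y ∈ (Finset.Ioc m n).filter U' ∪ Finset.Ioc n (n * z), om P y * (1 / (y : ℝ)) := by
      apply Finset.sum_le_sum_of_subset_of_nonneg h1
      intro y _ _
      have := om_nonneg P y
      positivity
    refine h2.trans ?_
    have h3 : ∑ y ∈ (Finset.Ioc m n).filter U' ∪ Finset.Ioc n (n * z), om P y * (1 / (y : ℝ)) ≤
        ∑ y ∈ (Finset.Ioc m n).filter U', om P y * (1 / (y : ℝ)) +
        ∑ y ∈ Finset.Ioc n (n * z), om P y * (1 / (y : ℝ)) := by
      rw [← Finset.sum_union_inter]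
      have : 0 ≤ ∑ y ∈ (Finset.Ioc m n).filter U' ∩ Finset.Ioc n (n * z),
          om P y * (1 / (y : ℝ)) := by
        apply Finset.sum_nonneg
        intro y _
        have := om_nonneg P y
        positivity
      linarith
    refine h3.trans ?_
    have h4 : ∑ y ∈ Finset.Ioc n (n * z), om P y * (1 / (y : ℝ)) ≤ P.card * z := by
      by_cases hn : n = 0
      · subst hn
        simp
        positivity
      · have hn0 : (0 : ℝ) < n := by exact_mod_cast Nat.pos_of_ne_zero hn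
        have h5 : ∀ y ∈ Finset.Ioc n (n * z), om P y * (1 / (y : ℝ)) ≤ P.card * (1 / n) := by
          intro y hy
          rw [Finset.mem_Ioc] at hy
          have h6 : (n : ℝ) ≤ y := by exact_mod_cast hy.1.le
          have h7 := om_nonneg P y
          have h8 := om_le P y
          gcongr
        refine (Finset.sum_le_sum h5).trans ?_
        rw [Finset.sum_const, nsmul_eq_mul, Nat.card_Ioc]
        have h6 : ((n * z - n : ℕ) : ℝ) ≤ n * z := by exact_mod_cast Nat.sub_le _ _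
        calc ((n * z - n : ℕ) : ℝ) * (P.card * (1 / n)) ≤ (n * z) * (P.card * (1 / n)) := by gcongr
          _ = P.card * z := by field_simp
    linarith
  -- conclude
  have h1 : R P * ∑ a ∈ A, 1 / (a : ℝ) ≤
      ∑ y ∈ (Finset.Ioc m n).filter U', (om P y - R P) * (1 / (y : ℝ)) + P.card * z := by
    have h2 : ∑ y ∈ (Finset.Ioc m n).filter U', (om P y - R P) * (1 / (y : ℝ)) =
        ∑ y ∈ (Finset.Ioc m n).filter U', om P y * (1 / (y : ℝ)) -
          R P * ∑ y ∈ (Finset.Ioc m n).filter U', 1 / (y : ℝ) := by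
      rw [Finset.mul_sum, ← Finset.sum_sub_distrib]
      apply Finset.sum_congr rfl
      intro y _
      ring
    rw [h2]
    rw [hsplit, mul_add] at hinj
    linarith
  have h2 : ∑ y ∈ (Finset.Ioc m n).filter U', (om P y - R P) * (1 / (y : ℝ)) ≤
      ∑ y ∈ Finset.Ioc m n, |om P y - R P| * (1 / (y : ℝ)) := by
    calc ∑ y ∈ (Finset.Ioc m n).filter U', (om P y - R P) * (1 / (y : ℝ))
        ≤ ∑ y ∈ (Finset.Ioc m n).filter U', |om P y - R P| * (1 / (y : ℝ)) := by
          apply Finset.sum_le_sum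
          intro y _
          exact mul_le_mul_of_nonneg_right (le_abs_self _) (by positivity)
      _ ≤ _ := by
          apply Finset.sum_le_sum_of_subset_of_nonneg (Finset.filter_subset _ _)
          intro y _ _
          positivity
  linarith

/-- finite sets of primes with large reciprocal sum. -/
theorem exists_primes (B : ℝ) : ∃ P : Finset ℕ, (∀ p ∈ P, p.Prime) ∧ B ≤ R P := by
  classical
  have hns := not_summable_one_div_on_primes
  by_contra hcon
  push Not at hcon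
  apply hns
  apply summable_of_sum_le (c := B)
  · intro p
    apply Set.indicator_nonneg
    intro x _
    positivity
  · intro u
    have h1 := hcon (u.filter Nat.Prime) (fun p hp => (Finset.mem_filter.1 hp).2)
    have h2 : ∑ x ∈ u, Set.indicator {p | Nat.Prime p} (fun n : ℕ => (1 / n : ℝ)) x =
        R (u.filter Nat.Prime) := by
      unfold R
      rw [Finset.sum_filter]
      apply Finset.sum_congr rfl
      intro x _
      by_cases hx : Nat.Prime x
      · rw [Set.indicator_of_mem (show x ∈ {p | Nat.Prime p} from hx), if_pos hx]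
      · rw [Set.indicator_of_notMem (show x ∉ {p | Nat.Prime p} from hx), if_neg hx]
    rw [h2]
    exact h1.le

/-- The windowed Behrend inequality. -/
theorem behrend (c : ℝ) (hc : 0 < c) : ∃ C : ℝ, 0 ≤ C ∧ ∀ m n : ℕ, m ≤ n →
    ∀ A : Finset ℕ, A ⊆ Finset.Ioc m n → Prim A → ∑ a ∈ A, 1 / (a : ℝ) ≤ c * H m n + C := by
  obtain ⟨P, hP, hR⟩ := exists_primes ((1 / c) ^ 2)
  have hR0 : 0 < R P := lt_of_lt_of_le (by positivity) hR
  have hsq : 1 / c ≤ √(R P) := Real.le_sqrt_of_sq_le hR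
  have hs0 : 0 < √(R P) := Real.sqrt_pos.2 hR0
  have hss : √(R P) * √(R P) = R P := Real.mul_self_sqrt hR0.le
  obtain ⟨z, hz⟩ : ∃ z : ℕ, ∀ p ∈ P, p ≤ z := ⟨P.sup id, fun p hp => Finset.le_sup (f := id) hp⟩
  obtain ⟨C, hC⟩ : ∃ C : ℝ, C = ((P.card ^ 2 + 2 * R P * P.card) / (2 * √(R P)) +
      P.card * z) / R P := ⟨_, rfl⟩
  refine ⟨C, by rw [hC]; positivity, fun m n hmn A hA hprim => ?_⟩
  have h1 := basic P hP z hz m n hmn A hA hprim
  have h2 := abs_dev P hP hR0 m n hmn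
  have h3 : R P * ∑ a ∈ A, 1 / (a : ℝ) ≤ √(R P) * H m n + C * R P := by
    rw [hC, div_mul_cancel₀ _ hR0.ne']
    linarith
  have h4 : √(R P) ≤ c * R P := by
    have : 1 ≤ c * √(R P) := by
      rw [div_le_iff₀ hc] at hsq
      linarith
    nlinarith
  have hH := H_nonneg m n
  have h5 : R P * ∑ a ∈ A, 1 / (a : ℝ) ≤ R P * (c * H m n + C) := by
    have : √(R P) * H m n ≤ c * R P * H m n := by gcongr
    nlinarith
  exact le_of_mul_le_mul_left h5 hR0

end Pool.Agent.Q52.Behrend
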