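import Mathlib

/-!
# Sets without additive relations and two projections

`G` is an abelian group, `π 0` and `π 1` are homomorphisms whose kernels meet in `0`. The elements
of a finite set `A ⊆ G` are the edges of a bipartite graph whose vertices are the fibres of `π 0` and
of `π 1`. A closed walk of length `2 j` in this graph gives an additive relation
`a_0 + a_2 + ... = a_1 + a_3 + ...`. So if all sums of `k` elements of `A` are different, then the
graph has no cycles of length at most `2 k`, and by Moore's bound `|A| ≤ 2 t N` for all `t` with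
`N < t ^ k`, where the projections of `A` have at most `N` elements.
-/

set_option autoImplicit false

open Finset

namespace Pool.Agent.Q52.Bk

variable {G H : Type*} [AddCommGroup G] [AddCommGroup H]

/-- all sums of `k` elements of `A` (with repetitions) are different -/
def SumsDiffer (k : ℕ) (A : Set G) : Prop :=
  ∀ s t : Multiset G, s.card = k → t.card = k → (∀ x ∈ s, x ∈ A) → (∀ x ∈ t, x ∈ A) →
    s.sum = t.sum → s = t

lemma SumsDiffer.mono {k : ℕ} {A B : Set G} (h : SumsDiffer k A) (hB : B ⊆ A) : SumsDiffer k B :=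
  fun s t hs ht hsA htA hst => h s t hs ht (fun x hx => hB (hsA x hx)) (fun x hx => hB (htA x hx)) hst

lemma SumsDiffer.le {k j : ℕ} {A : Set G} (h : SumsDiffer k A) (hjk : j ≤ k) {a : G} (ha : a ∈ A) :
    SumsDiffer j A := by
  intro s t hs ht hsA htA hst
  have h1 := h (s + Multiset.replicate (k - j) a) (t + Multiset.replicate (k - j) a)
    (by rw [Multiset.card_add, Multiset.card_replicate, hs]; omega)
    (by rw [Multiset.card_add, Multiset.card_replicate, ht]; omega)
    (fun x hx => by
      rcases Multiset.mem_add.1 hx with h | h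
      · exact hsA x h
      · rw [Multiset.eq_of_mem_replicate h]; exact ha)
    (fun x hx => by
      rcases Multiset.mem_add.1 hx with h | h
      · exact htA x h
      · rw [Multiset.eq_of_mem_replicate h]; exact ha)
    (by rw [Multiset.sum_add, Multiset.sum_add, hst])
  exact add_right_cancel h1

/-- a closed alternating walk without additive relation has a repetition -/
lemma repetition (π : ℕ → G →+ H) (hπ : ∀ n, π (n + 2) = π n)
    (hinj : ∀ x, π 0 x = 0 → π 1 x = 0 → x = 0) {k : ℕ} {A : Set G} (hA : SumsDiffer k A) :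
    ∀ j : ℕ, 1 ≤ j → j ≤ k → ∀ (s : ℕ) (c : ℕ → G), (∀ n, n < 2 * j → c n ∈ A) →
      (∀ n, n + 1 < 2 * j → π (s + n) (c n) = π (s + n) (c (n + 1))) →
      π (s + 1) (c (2 * j - 1)) = π (s + 1) (c 0) → ∃ n, n + 1 < 2 * j ∧ c n = c (n + 1) := by
  have hπ2 : ∀ m n, π (n + 2 * m) = π n := by
    intro m
    induction m with
    | zero => intro n; rfl
    | succ m ih => intro n; rw [show n + 2 * (m + 1) = (n + 2 * m) + 2 by ring, hπ, ih]
  have hinj2 : ∀ s x, π s x = 0 → π (s + 1) x = 0 → x = 0 := by
    intro s x h0 h1
    rcases Nat.even_or_odd' s with ⟨m, hm | hm⟩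
    · rw [hm, show 2 * m = 0 + 2 * m by ring, hπ2] at h0
      rw [hm, show 2 * m + 1 = 1 + 2 * m by ring, hπ2] at h1
      exact hinj x h0 h1
    · rw [hm, show 2 * m + 1 = 1 + 2 * m by ring, hπ2] at h0
      rw [hm, show 2 * m + 1 + 1 = 0 + 2 * (m + 1) by ring, hπ2] at h1
      exact hinj x h1 h0
  intro j
  induction j using Nat.strong_induction_on with
  | _ j ih =>
    intro hj1 hjk s c hcA hc hw
    have hc0 : c 0 ∈ A := hcA 0 (by omega)
    have hsum : ∑ i ∈ range j, c (2 * i) = ∑ i ∈ range j, c (2 * i + 1) := by
      rw [← sub_eq_zero]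
      refine hinj2 s _ ?_ ?_
      · rw [map_sub, map_sum, map_sum, sub_eq_zero]
        refine sum_congr rfl fun i hi => ?_
        have := hc (2 * i) (by have := mem_range.1 hi; omega)
        rwa [hπ2] at this
      · rw [map_sub, map_sum, map_sum, sub_eq_zero]
        obtain ⟨m, rfl⟩ : ∃ m, j = m + 1 := ⟨j - 1, by omega⟩
        rw [sum_range_succ' (fun i => π (s + 1) (c (2 * i))), sum_range_succ
          (fun i => π (s + 1) (c (2 * i + 1)))]
        have e1 : 2 * (m + 1) - 1 = 2 * m + 1 := by omega
        rw [e1] at hw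
        rw [hw]
        congr 1
        refine sum_congr rfl fun i hi => ?_
        have := hc (2 * i + 1) (by have := mem_range.1 hi; omega)
        rw [show s + (2 * i + 1) = (s + 1) + 2 * i by ring, hπ2] at this
        exact this.symm
    have hB := hA.le hjk hc0
    have hm := hB ((Multiset.range j).map fun i => c (2 * i))
      ((Multiset.range j).map fun i => c (2 * i + 1)) (by simp) (by simp)
      (fun x hx => by
        obtain ⟨i, hi, rfl⟩ := Multiset.mem_map.1 hx
        exact hcA _ (by have := Multiset.mem_range.1 hi; omega))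
      (fun x hx => by
        obtain ⟨i, hi, rfl⟩ := Multiset.mem_map.1 hx
        exact hcA _ (by have := Multiset.mem_range.1 hi; omega)) hsum
    have h0 : c 0 ∈ ((Multiset.range j).map fun i => c (2 * i + 1)) := by
      rw [← hm]
      exact Multiset.mem_map.2 ⟨0, Multiset.mem_range.2 (by omega), rfl⟩
    obtain ⟨m, hmj, hcm⟩ := Multiset.mem_map.1 h0
    rw [Multiset.mem_range] at hmj
    rcases Nat.eq_zero_or_pos m with rfl | hm0
    · exact ⟨0, by omega, hcm.symm⟩
    · obtain ⟨n, hn, hcn⟩ := ih m hmj hm0 (by omega) (s + 1) (fun n => c (n + 1))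
        (fun n hn => hcA _ (by omega))
        (fun n hn => by
          have := hc (n + 1) (by omega)
          rwa [show s + (n + 1) = s + 1 + n by ring] at this)
        (by
          have h1 := hc (2 * m) (by omega)
          rw [hπ2, hcm] at h1
          have h2 := hc 0 (by omega)
          rw [Nat.add_zero, Nat.zero_add] at h2
          rw [show s + 1 + 1 = s + 2 by ring, hπ, show 2 * m - 1 + 1 = 2 * m by omega,
            Nat.zero_add, h1, h2])
      exact ⟨n + 1, by omega, hcn⟩

/-- pruning: a subset all of whose nonempty fibres are large -/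
lemma prune [DecidableEq G] [DecidableEq H] (p q : G →+ H) (t : ℕ) :
    ∀ (n : ℕ) (A : Finset G), A.card = n →
      t * ((A.image p).card + (A.image q).card) < A.card →
      ∃ B ⊆ A, B.Nonempty ∧ (∀ a ∈ B, t < (B.filter fun b => p b = p a).card) ∧
        ∀ a ∈ B, t < (B.filter fun b => q b = q a).card := by
  have key : ∀ (f g : G →+ H) (A : Finset G), t * ((A.image f).card + (A.image g).card) < A.card →
      ∀ a ∈ A, (A.filter fun b => f b = f a).card ≤ t →
      t * (((A.filter fun b => f b ≠ f a).image f).card +
        ((A.filter fun b => f b ≠ f a).image g).card) < (A.filter fun b => f b ≠ f a).card ∧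
      (A.filter fun b => f b ≠ f a).card < A.card := by
    intro f g A h a ha hle
    have h1 : (A.filter fun b => f b = f a).card + (A.filter fun b => f b ≠ f a).card = A.card :=
      card_filter_add_card_filter_not _
    have h2 : ((A.filter fun b => f b ≠ f a).image g).card ≤ (A.image g).card :=
      card_le_card (image_subset_image (filter_subset _ _))
    have h3 : ((A.filter fun b => f b ≠ f a).image f).card + 1 ≤ (A.image f).card := by
      rw [← card_insert_of_notMem (a := f a)]
      · refine card_le_card ?_
        intro y hy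
        rcases mem_insert.1 hy with rfl | hy
        · exact mem_image_of_mem _ ha
        · obtain ⟨b, hb, rfl⟩ := mem_image.1 hy
          exact mem_image_of_mem _ (mem_filter.1 hb).1
      · intro hy
        obtain ⟨b, hb, hba⟩ := mem_image.1 hy
        exact (mem_filter.1 hb).2 hba
    have h4 : 0 < (A.filter fun b => f b = f a).card := card_pos.2 ⟨a, mem_filter.2 ⟨ha, rfl⟩⟩
    refine ⟨?_, by omega⟩
    have h5 : t * (((A.filter fun b => f b ≠ f a).image f).card +
        ((A.filter fun b => f b ≠ f a).image g).card) + t ≤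
        t * ((A.image f).card + (A.image g).card) := by
      rw [← Nat.mul_succ]
      exact Nat.mul_le_mul_left _ (by omega)
    omega
  intro n
  induction n using Nat.strong_induction_on with
  | _ n ih =>
    intro A hn hlt
    by_cases h : ∃ a ∈ A, (A.filter fun b => p b = p a).card ≤ t
    · obtain ⟨a, ha, hle⟩ := h
      obtain ⟨h1, h2⟩ := key p q A hlt a ha hle
      obtain ⟨B, hBA, hB⟩ := ih _ (by omega) _ rfl h1
      exact ⟨B, hBA.trans (filter_subset _ _), hB⟩
    by_cases h' : ∃ a ∈ A, (A.filter fun b => q b = q a).card ≤ t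
    · obtain ⟨a, ha, hle⟩ := h'
      obtain ⟨h1, h2⟩ := key q p A (by rw [Nat.add_comm]; exact hlt) a ha hle
      rw [Nat.add_comm] at h1
      obtain ⟨B, hBA, hB⟩ := ih _ (by omega) _ rfl h1
      exact ⟨B, hBA.trans (filter_subset _ _), hB⟩
    push Not at h h'
    exact ⟨A, Subset.rfl, card_pos.1 (by omega), h, h'⟩

/-- the walk with given choices -/
def walk {t k : ℕ} (nxt : ℕ → G → Fin t → G) (a : G) (w : Fin k → Fin t) : ℕ → G
  | 0 => if h : 0 < k then nxt 1 a (w ⟨0, h⟩) else a
  | n + 1 => if h : n + 1 < k then nxt n (walk nxt a w n) (w ⟨n + 1, h⟩) else a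

/-- a set all of whose fibres are large has many fibres -/
lemma pow_le [DecidableEq G] [DecidableEq H] (π : ℕ → G →+ H) (hπ : ∀ n, π (n + 2) = π n)
    (hinj : ∀ x, π 0 x = 0 → π 1 x = 0 → x = 0) {k : ℕ} (hk : 1 ≤ k) {t : ℕ} {B : Finset G}
    (hB : SumsDiffer k (B : Set G)) (hne : B.Nonempty)
    (hfib : ∀ n, ∀ a ∈ B, t < (B.filter fun b => π n b = π n a).card) :
    t ^ k ≤ (B.image (π (k - 1))).card := by
  classical
  have hπp : ∀ n, π (n + 1 + 1) = π n := hπ
  -- the choices
  have hch : ∀ (n : ℕ) (a : G), ∃ f : Fin t → G, Function.Injective f ∧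
      (a ∈ B → ∀ x, f x ∈ B ∧ π n (f x) = π n a ∧ f x ≠ a) := by
    intro n a
    by_cases ha : a ∈ B
    · have h1 : t ≤ ((B.filter fun b => π n b = π n a).erase a).card := by
        have h0 : a ∈ B.filter fun b => π n b = π n a := mem_filter.2 ⟨ha, rfl⟩
        have h2 := card_erase_add_one h0
        have := hfib n a ha
        omega
      obtain ⟨S, hS, hSc⟩ := exists_subset_card_eq h1
      refine ⟨fun x => (S.equivFinOfCardEq hSc).symm x, ?_, fun _ x => ?_⟩
      · intro x y hxy
        exact (S.equivFinOfCardEq hSc).symm.injective (Subtype.ext hxy)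
      · have h2 := hS ((S.equivFinOfCardEq hSc).symm x).2
        have h3 := mem_erase.1 h2
        have h4 := mem_filter.1 h3.2
        exact ⟨h4.1, h4.2, h3.1⟩
    · rcases Nat.eq_zero_or_pos t with h0 | h0
      · subst h0
        exact ⟨fun x => x.elim0, fun x => x.elim0, fun _ x => x.elim0⟩
      · obtain ⟨b, hb⟩ := hne
        have h1 : t ≤ (B.filter fun c => π n c = π n b).card := (hfib n b hb).le
        obtain ⟨S, hS, hSc⟩ := exists_subset_card_eq h1
        exact ⟨fun x => (S.equivFinOfCardEq hSc).symm x,
          fun x y hxy => (S.equivFinOfCardEq hSc).symm.injective (Subtype.ext hxy),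
          fun h => absurd h ha⟩
  choose nxt hni hn using hch
  obtain ⟨a₀, ha₀⟩ := hne
  have hw0 : ∀ (w : Fin k → Fin t), walk nxt a₀ w 0 = nxt 1 a₀ (w ⟨0, hk⟩) := by
    intro w
    rw [walk, dif_pos]
  have hws : ∀ (w : Fin k → Fin t) (n : ℕ) (h : n + 1 < k),
      walk nxt a₀ w (n + 1) = nxt n (walk nxt a₀ w n) (w ⟨n + 1, h⟩) := by
    intro w n h
    rw [walk, dif_pos h]
  have hwB : ∀ (w : Fin k → Fin t) (n : ℕ), n < k → walk nxt a₀ w n ∈ B := by
    intro w n
    induction n with
    | zero => intro _; rw [hw0]; exact (hn 1 a₀ ha₀ _).1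
    | succ n ih => intro h; rw [hws w n h]; exact (hn n _ (ih (by omega)) _).1
  have hwp : ∀ (w : Fin k → Fin t) (n : ℕ), n + 1 < k →
      π n (walk nxt a₀ w n) = π n (walk nxt a₀ w (n + 1)) := by
    intro w n h
    rw [hws w n h]
    exact (hn n _ (hwB w n (by omega)) _).2.1.symm
  have hwn : ∀ (w : Fin k → Fin t) (n : ℕ), n + 1 < k →
      walk nxt a₀ w n ≠ walk nxt a₀ w (n + 1) := by
    intro w n h
    rw [hws w n h]
    exact ((hn n _ (hwB w n (by omega)) _).2.2).symm
  have hwstart : ∀ w w' : Fin k → Fin t, π 1 (walk nxt a₀ w 0) = π 1 (walk nxt a₀ w' 0) := by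
    intro w w'
    rw [hw0, hw0, (hn 1 a₀ ha₀ _).2.1, (hn 1 a₀ ha₀ _).2.1]
  -- different choices give different walks
  have hdet : ∀ w w' : Fin k → Fin t, (∀ n, n < k → walk nxt a₀ w n = walk nxt a₀ w' n) → w = w' := by
    intro w w' h
    funext i
    obtain ⟨i, hi⟩ := i
    rcases i with _ | i
    · have := h 0 hi
      rw [hw0, hw0] at this
      exact hni 1 a₀ this
    · have h1 := h (i + 1) hi
      rw [hws w i hi, hws w' i hi, h i (by omega)] at h1
      exact hni _ _ h1
  -- the ends of the walks are different
  have hend : Function.Injective fun w : Fin k → Fin t => π (k - 1) (walk nxt a₀ w (k - 1)) := by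
    intro w w' hww
    simp only at hww
    by_contra hne'
    set a := walk nxt a₀ w with ha
    set b := walk nxt a₀ w' with hb
    have hex : ∃ n, n < k ∧ a n ≠ b n := by
      by_contra hcon
      push Not at hcon
      exact hne' (hdet w w' hcon)
    have hS : ((range k).filter fun n => a n ≠ b n).Nonempty := by
      obtain ⟨n, hnk, hab⟩ := hex
      exact ⟨n, mem_filter.2 ⟨mem_range.2 hnk, hab⟩⟩
    set i₀ := ((range k).filter fun n => a n ≠ b n).min' hS with hi₀
    set i₁ := ((range k).filter fun n => a n ≠ b n).max' hS with hi₁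
    have hm0 := mem_filter.1 (min'_mem _ hS)
    have hm1 := mem_filter.1 (max'_mem _ hS)
    rw [← hi₀] at hm0
    rw [← hi₁] at hm1
    have hk0 := mem_range.1 hm0.1
    have hk1 := mem_range.1 hm1.1
    have h01 : i₀ ≤ i₁ := min'_le _ _ (max'_mem _ hS)
    have hlow : ∀ n, n < i₀ → a n = b n := by
      intro n hn'
      by_contra hc
      have hmem : n ∈ (range k).filter fun n => a n ≠ b n :=
        mem_filter.2 ⟨mem_range.2 (by omega), hc⟩
      have := min'_le _ n hmem
      omega
    have hhigh : ∀ n, i₁ < n → n < k → a n = b n := by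
      intro n hn' hnk
      by_contra hc
      have hmem : n ∈ (range k).filter fun n => a n ≠ b n :=
        mem_filter.2 ⟨mem_range.2 hnk, hc⟩
      have := le_max' _ n hmem
      omega
    have hπ2 : ∀ m n, π (n + 2 * m) = π n := by
      intro m
      induction m with
      | zero => intro n; rfl
      | succ m ih => intro n; rw [show n + 2 * (m + 1) = (n + 2 * m) + 2 by ring, hπ, ih]
    -- the closing identities
    have hclose1 : π i₁ (a i₁) = π i₁ (b i₁) := by
      rcases Nat.lt_or_ge (i₁ + 1) k with h | h
      · rw [hwp w i₁ h, hwp w' i₁ h]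
        show π i₁ (a (i₁ + 1)) = π i₁ (b (i₁ + 1))
        rw [hhigh (i₁ + 1) (by omega) h]
      · have : i₁ = k - 1 := by omega
        rw [this]
        exact hww
    have hclose0 : π (i₀ + 1) (a i₀) = π (i₀ + 1) (b i₀) := by
      rcases Nat.eq_zero_or_pos i₀ with h | h
      · rw [h]
        exact hwstart w w'
      · obtain ⟨m, hm⟩ : ∃ m, i₀ = m + 1 := ⟨i₀ - 1, by omega⟩
        rw [hm, hπp, ← hwp w m (by omega), ← hwp w' m (by omega)]
        show π m (a m) = π m (b m)
        rw [hlow m (by omega)]
    -- the closed walk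
    set d := i₁ - i₀ with hd
    set c : ℕ → G := fun n => if n ≤ d then a (i₀ + n) else b (i₁ + d + 1 - n) with hc
    have hcA : ∀ n, n < 2 * (d + 1) → c n ∈ (B : Set G) := by
      intro n hn'
      simp only [hc]
      split_ifs with h
      · exact hwB w _ (by omega)
      · exact hwB w' _ (by omega)
    obtain ⟨n, hn1, hn2⟩ := repetition π hπ hinj hB (d + 1) (by omega) (by omega) i₀ c hcA
      (by
        intro n hn'
        simp only [hc]
        rcases lt_trichotomy n d with h | h | h
        · rw [if_pos (by omega), if_pos (by omega)]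
          exact hwp w (i₀ + n) (by omega)
        · rw [if_pos (by omega), if_neg (by omega), h, show i₀ + d = i₁ by omega,
            show i₁ + d + 1 - (d + 1) = i₁ by omega]
          exact hclose1
        · rw [if_neg (by omega), if_neg (by omega)]
          obtain ⟨m, hm⟩ : ∃ m, i₁ + d + 1 - (n + 1) = m := ⟨_, rfl⟩
          have e1 : i₁ + d + 1 - n = m + 1 := by omega
          have e2 : i₀ + n = m + 2 * (n - d) := by omega
          rw [hm, e1, e2, hπ2]
          exact (hwp w' m (by omega)).symm)
      (by
        simp only [hc]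
        rw [if_neg (by omega), if_pos (by omega), show i₁ + d + 1 - (2 * (d + 1) - 1) = i₀ by omega,
          Nat.add_zero]
        exact hclose0.symm)
    simp only [hc] at hn2
    rcases lt_trichotomy n d with h | h | h
    · rw [if_pos (by omega), if_pos (by omega)] at hn2
      exact hwn w (i₀ + n) (by omega) hn2
    · rw [if_pos (by omega), if_neg (by omega), h, show i₀ + d = i₁ by omega,
        show i₁ + d + 1 - (d + 1) = i₁ by omega] at hn2
      exact hm1.2 hn2
    · rw [if_neg (by omega), if_neg (by omega)] at hn2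
      obtain ⟨m, hm⟩ : ∃ m, i₁ + d + 1 - (n + 1) = m := ⟨_, rfl⟩
      have e1 : i₁ + d + 1 - n = m + 1 := by omega
      rw [hm, e1] at hn2
      exact hwn w' m (by omega) hn2.symm
  calc t ^ k = (univ : Finset (Fin k → Fin t)).card := by
        rw [card_univ, Fintype.card_fun, Fintype.card_fin, Fintype.card_fin]
    _ = (univ.image fun w : Fin k → Fin t => π (k - 1) (walk nxt a₀ w (k - 1))).card :=
        (card_image_of_injective _ hend).symm
    _ ≤ (B.image (π (k - 1))).card := by
        refine card_le_card fun y hy => ?_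
        obtain ⟨w, _, rfl⟩ := mem_image.1 hy
        exact mem_image_of_mem _ (hwB w (k - 1) (by omega))

/-- **the main inequality**: a set all of whose sums of `k` elements are different has at most
`2 t N` elements if two projections have at most `N < t ^ k` elements -/
theorem card_le [DecidableEq G] [DecidableEq H] (p q : G →+ H)
    (hpq : ∀ x, p x = 0 → q x = 0 → x = 0) {k : ℕ} (hk : 1 ≤ k) {A : Finset G}
    (hA : SumsDiffer k (A : Set G)) {N t : ℕ} (hp : (A.image p).card ≤ N) (hq : (A.image q).card ≤ N)
    (ht : N < t ^ k) : A.card ≤ 2 * t * N := by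
  by_contra hlt
  push Not at hlt
  obtain ⟨B, hBA, hne, h1, h2⟩ := prune p q t _ A rfl (by nlinarith)
  set π : ℕ → G →+ H := fun n => if n % 2 = 0 then p else q with hπ
  have h := pow_le π (fun n => by simp only [hπ]; rw [Nat.add_mod_right])
    (fun x h0 h1 => hpq x (by simpa [hπ] using h0) (by simpa [hπ] using h1)) hk
    (hA.mono (by exact_mod_cast hBA)) hne
    (fun n a ha => by
      simp only [hπ]
      split_ifs
      · exact h1 a ha
      · exact h2 a ha)
  have h3 : (B.image (π (k - 1))).card ≤ N := by
    simp only [hπ]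
    split_ifs
    · exact (card_le_card (image_subset_image hBA)).trans hp
    · exact (card_le_card (image_subset_image hBA)).trans hq
  omega

end Pool.Agent.Q52.Bk
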