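import Mathlib

/-!
# Progressions in sets of bounded Bohr dimension

A subset of `[1, N]` which is described by `d` linear phases `θ_i n + α_i` modulo one and by sets
`S ⊆ ℝ^d` which meet every line in at most `P` intervals.
-/

set_option autoImplicit false

open Finset

namespace Pool.Agent.Q52.Bohr

/-- `T ⊆ ℝ` is a union of at most `P` intervals -/
def Intervals (P : ℕ) (T : Set ℝ) : Prop :=
  ∃ I : Fin P → Set ℝ, (∀ i, (I i).OrdConnected) ∧ T = ⋃ i, I i

/-- every line meets `S ⊆ ℝ^d` in at most `P` intervals -/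
def LineSimple {d : ℕ} (P : ℕ) (S : Set (Fin d → ℝ)) : Prop :=
  ∀ x v : Fin d → ℝ, Intervals P {t : ℝ | x + t • v ∈ S}

/-- the point of `[0,1)^d` attached to `n` by the phases `θ_i n + α_i` -/
noncomputable def point {d : ℕ} (θ α : Fin d → ℝ) (n : ℕ) : Fin d → ℝ :=
  fun i => Int.fract (θ i * n + α i)

/-- simultaneous approximation -/
lemma dirichlet {d : ℕ} (θ : Fin d → ℝ) {Q : ℕ} (hQ : 0 < Q) :
    ∃ q : ℕ, 1 ≤ q ∧ q ≤ Q ^ d ∧ ∃ m : Fin d → ℤ, ∀ i, |θ i * q - m i| ≤ 1 / Q := by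
  classical
  have hQR : (0:ℝ) < Q := by exact_mod_cast hQ
  let f : ℕ → (Fin d → Fin Q) := fun n i => ⟨⌊(Q:ℝ) * Int.fract (θ i * n)⌋₊, by
    have h1 := Int.fract_lt_one (θ i * n)
    have h0 := Int.fract_nonneg (θ i * n)
    rw [Nat.floor_lt (by positivity)]
    nlinarith⟩
  obtain ⟨a, ha, b, hb, hab, hf⟩ := Finset.exists_ne_map_eq_of_card_lt_of_maps_to
    (s := range (Q ^ d + 1)) (t := (univ : Finset (Fin d → Fin Q))) (f := f)
    (by simp) (fun _ _ => mem_univ _)
  have key : ∀ a b : ℕ, a < b → f a = f b → b ≤ Q ^ d → ∃ q : ℕ, 1 ≤ q ∧ q ≤ Q ^ d ∧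
      ∃ m : Fin d → ℤ, ∀ i, |θ i * q - m i| ≤ 1 / Q := by
    intro a b hab hf hb
    refine ⟨b - a, by omega, by omega, fun i => ⌊θ i * b⌋ - ⌊θ i * a⌋, fun i => ?_⟩
    have h1 : ⌊(Q:ℝ) * Int.fract (θ i * a)⌋₊ = ⌊(Q:ℝ) * Int.fract (θ i * b)⌋₊ := by
      have := congrFun hf i
      exact congrArg Fin.val this
    have ha0 : (0:ℝ) ≤ (Q:ℝ) * Int.fract (θ i * a) := mul_nonneg hQR.le (Int.fract_nonneg _)
    have hb0 : (0:ℝ) ≤ (Q:ℝ) * Int.fract (θ i * b) := mul_nonneg hQR.le (Int.fract_nonneg _)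
    have u1 := Nat.floor_le ha0
    have u2 := Nat.lt_floor_add_one ((Q:ℝ) * Int.fract (θ i * a))
    have u3 := Nat.floor_le hb0
    have u4 := Nat.lt_floor_add_one ((Q:ℝ) * Int.fract (θ i * b))
    rw [h1] at u1 u2
    have e1 : Int.fract (θ i * a) = θ i * a - ⌊θ i * a⌋ := rfl
    have e2 : Int.fract (θ i * b) = θ i * b - ⌊θ i * b⌋ := rfl
    have h2 : |(Q:ℝ) * (Int.fract (θ i * b) - Int.fract (θ i * a))| ≤ 1 := by
      rw [abs_le]
      constructor <;> nlinarith
    rw [abs_mul, abs_of_pos hQR] at h2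
    have h3 : |Int.fract (θ i * b) - Int.fract (θ i * a)| ≤ 1 / Q := by
      rw [le_div_iff₀ hQR, mul_comm]
      exact h2
    refine le_trans (le_of_eq ?_) h3
    rw [e1, e2, Nat.cast_sub hab.le]
    push_cast
    congr 1
    ring
  rw [mem_range] at ha hb
  rcases lt_or_gt_of_ne hab with h | h
  · exact key a b h hf (by omega)
  · exact key b a h hf.symm (by omega)

/-- a finite set whose order hull lies in a set without `k` consecutive elements -/
lemma run {k : ℕ} (hk : 1 ≤ k) {F B : Finset ℕ}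
    (hull : ∀ j ∈ F, ∀ j' ∈ F, ∀ i, j ≤ i → i ≤ j' → i ∈ B)
    (hfree : ∀ j, ¬ ∀ l < k, j + l ∈ B) : F.card ≤ k - 1 := by
  by_contra hcon
  push Not at hcon
  have hne : F.Nonempty := by
    rw [← Finset.card_pos]
    omega
  have h1 : F ⊆ Icc (F.min' hne) (F.max' hne) := fun x hx =>
    mem_Icc.2 ⟨F.min'_le x hx, F.le_max' x hx⟩
  have h2 := card_le_card h1
  rw [Nat.card_Icc] at h2
  refine hfree (F.min' hne) fun l hl => ?_
  exact hull _ (F.min'_mem hne) _ (F.max'_mem hne) _ (by omega) (by omega)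

/-- the points of one progression -/
lemma progression {d P k L : ℕ} (hk : 1 ≤ k) {S : Set (Fin d → ℝ)} (hS : LineSimple P S)
    (y v : Fin d → ℝ) {δ : ℝ} (hδ : 0 ≤ δ) (hv : ∀ i, |v i| ≤ δ) (B : Finset ℕ)
    (hB : ∀ j, j ∈ B ↔ j < L ∧ (fun i => Int.fract (y i + j * v i)) ∈ S)
    (hfree : ∀ j, ¬ ∀ l < k, j + l ∈ B) :
    (B.card : ℝ) ≤ (k - 1 : ℕ) * (P * (d * (L * δ + 1) + 1)) := by
  classical
  -- the integral parts
  set K : ℕ → Fin d → ℤ := fun j i => ⌊y i + j * v i⌋ with hK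
  set φ : ℕ → ℕ := fun j => ∑ i, (K j i - K 0 i).natAbs with hφ
  have mono : ∀ j j' : ℕ, j ≤ j' → ∀ i, (K j i - K 0 i).natAbs ≤ (K j' i - K 0 i).natAbs ∧
      ((K j i - K 0 i).natAbs = (K j' i - K 0 i).natAbs → K j i = K j' i) := by
    intro j j' hjj i
    have hjR : (j:ℝ) ≤ j' := by exact_mod_cast hjj
    have hj0 : (0:ℝ) ≤ j := by positivity
    rcases le_total 0 (v i) with h | h
    · have a1 : K 0 i ≤ K j i := Int.floor_le_floor (by push_cast; nlinarith)
      have a2 : K j i ≤ K j' i := Int.floor_le_floor (by nlinarith)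
      constructor
      · omega
      · intro; omega
    · have a1 : K j i ≤ K 0 i := Int.floor_le_floor (by push_cast; nlinarith)
      have a2 : K j' i ≤ K j i := Int.floor_le_floor (by nlinarith)
      constructor
      · omega
      · intro; omega
  have φmono : ∀ j j' : ℕ, j ≤ j' → φ j ≤ φ j' := fun j j' h =>
    Finset.sum_le_sum fun i _ => (mono j j' h i).1
  have φinj : ∀ j j' : ℕ, j ≤ j' → φ j = φ j' → K j = K j' := by
    intro j j' h he
    funext i
    refine (mono j j' h i).2 ?_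
    exact (Finset.sum_eq_sum_iff_of_le fun i _ => (mono j j' h i).1).1 he i (mem_univ i)
  -- the pieces
  choose I hI1 hI2 using fun κ : Fin d → ℤ => hS (fun i => y i - κ i) v
  have mem_iff : ∀ j : ℕ, (fun i => Int.fract (y i + (j:ℝ) * v i)) ∈ S ↔
      ∃ p, (j:ℝ) ∈ I (K j) p := by
    intro j
    have e : (fun i => Int.fract (y i + (j:ℝ) * v i)) = (fun i => y i - (K j i : ℝ)) + (j:ℝ) • v := by
      funext i
      simp only [Pi.add_apply, Pi.smul_apply, smul_eq_mul, Int.fract, hK]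
      ring
    rw [e]
    have h := Set.ext_iff.1 (hI2 (K j)) (j:ℝ)
    rw [Set.mem_iUnion] at h
    exact h
  have hPB : ∀ j ∈ B, ∃ p, (j:ℝ) ∈ I (K j) p := fun j hj => (mem_iff j).1 ((hB j).1 hj).2
  rcases Nat.eq_zero_or_pos P with hP0 | hP0
  · subst hP0
    have : B = ∅ := by
      by_contra hne
      obtain ⟨j, hj⟩ := Finset.nonempty_iff_ne_empty.2 hne
      obtain ⟨p, _⟩ := hPB j hj
      exact p.elim0
    rw [this]
    simp
  set pc : ℕ → Fin P := fun j => if h : ∃ p, (j:ℝ) ∈ I (K j) p then h.choose else ⟨0, hP0⟩ with hpc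
  have hpcs : ∀ j ∈ B, (j:ℝ) ∈ I (K j) (pc j) := by
    intro j hj
    have h := hPB j hj
    simp only [hpc]
    rw [dif_pos h]
    exact h.choose_spec
  -- the labels
  set M : ℕ := ⌊(d:ℝ) * (L * δ + 1)⌋₊ with hM
  have hφM : ∀ j ∈ B, φ j < M + 1 := by
    intro j hj
    have hjL : (j:ℝ) ≤ L := by exact_mod_cast ((hB j).1 hj).1.le
    rw [Nat.lt_add_one_iff, hM, Nat.le_floor_iff (by positivity)]
    have h1 : ∀ i, ((K j i - K 0 i).natAbs : ℝ) ≤ L * δ + 1 := by
      intro i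
      have e' : ((K j i - K 0 i).natAbs : ℝ) = |((K j i - K 0 i : ℤ) : ℝ)| := by
        rw [Nat.cast_natAbs, Int.cast_abs]
      rw [e']
      push_cast
      have b1 := Int.floor_le (y i + j * v i)
      have b2 := Int.lt_floor_add_one (y i + j * v i)
      have b3 := Int.floor_le (y i + (0:ℕ) * v i)
      have b4 := Int.lt_floor_add_one (y i + (0:ℕ) * v i)
      have b5 : |(j:ℝ) * v i| ≤ L * δ := by
        rw [abs_mul, abs_of_nonneg (by positivity : (0:ℝ) ≤ j)]
        exact mul_le_mul hjL (hv i) (abs_nonneg _) (by positivity)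
      rw [abs_le] at b5 ⊢
      have c1 : (K j i : ℝ) = ⌊y i + j * v i⌋ := rfl
      have c2 : (K 0 i : ℝ) = ⌊y i + (0:ℕ) * v i⌋ := rfl
      rw [c1, c2]
      push_cast at *
      constructor <;> linarith [b5.1, b5.2]
    calc ((φ j : ℕ) : ℝ) = ∑ i, ((K j i - K 0 i).natAbs : ℝ) := by
          simp only [hφ]
          exact Nat.cast_sum _ _
      _ ≤ ∑ i : Fin d, ((L:ℝ) * δ + 1) := Finset.sum_le_sum fun i _ => h1 i
      _ = d * (L * δ + 1) := by rw [sum_const, card_univ, Fintype.card_fin, nsmul_eq_mul]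
  have hcount : B.card ≤ (k - 1) * ((range (M + 1)) ×ˢ (univ : Finset (Fin P))).card := by
    refine Finset.card_le_mul_card_image_of_maps_to (f := fun j => (φ j, pc j)) ?_ (k - 1) ?_
    · intro j hj
      rw [mem_product]
      exact ⟨mem_range.2 (hφM j hj), mem_univ _⟩
    · rintro ⟨m, p⟩ _
      refine run hk (B := B) ?_ hfree
      intro j hj j' hj' i hji hij'
      rw [mem_filter] at hj hj'
      obtain ⟨hjB, hje⟩ := hj
      obtain ⟨hjB', hje'⟩ := hj'
      simp only [Prod.mk.injEq] at hje hje'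
      have g1 : φ j = φ i := by
        have := φmono j i hji
        have := φmono i j' hij'
        omega
      have g2 : φ i = φ j' := by omega
      have k1 : K j = K i := φinj j i hji g1
      have k2 : K i = K j' := φinj i j' hij' g2
      have m1 : (j:ℝ) ∈ I (K i) p := by
        have := hpcs j hjB
        rw [hje.2, k1] at this
        exact this
      have m2 : (j':ℝ) ∈ I (K i) p := by
        have := hpcs j' hjB'
        rw [hje'.2, ← k2] at this
        exact this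
      have m3 : (i:ℝ) ∈ I (K i) p :=
        (hI1 (K i) p).out m1 m2 ⟨by exact_mod_cast hji, by exact_mod_cast hij'⟩
      exact (hB i).2 ⟨lt_of_le_of_lt hij' ((hB j').1 hjB').1, (mem_iff i).2 ⟨p, m3⟩⟩
  rw [card_product, card_range, card_univ, Fintype.card_fin] at hcount
  have hMle : (M:ℝ) ≤ d * (L * δ + 1) := Nat.floor_le (by positivity)
  calc (B.card : ℝ) ≤ (((k - 1) * ((M + 1) * P) : ℕ) : ℝ) := by exact_mod_cast hcount
    _ = (k - 1 : ℕ) * (P * ((M:ℝ) + 1)) := by push_cast; ring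
    _ ≤ _ := by gcongr

/-- sets described by one family of phases -/
lemma one {d P k N : ℕ} (hk : 1 ≤ k) {S : Set (Fin d → ℝ)} (hS : LineSimple P S)
    (θ α : Fin d → ℝ) {A : Finset ℕ} (hA : ∀ n, n ∈ A ↔ n ∈ Icc 1 N ∧ point θ α n ∈ S)
    (hfree : ∀ a q, 0 < q → ¬ ∀ l < k, a + l * q ∈ A) {Q : ℕ} (hQ : 0 < Q) (hQN : Q ^ d ≤ N) :
    (A.card : ℝ) ≤ (k - 1 : ℕ) * (P * (d * (2 * N / Q) + (Q:ℝ) ^ d * (d + 1))) := by
  classical
  obtain ⟨q, hq1, hq2, m, hm⟩ := dirichlet θ hQ
  have hQR : (0:ℝ) < Q := by exact_mod_cast hQ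
  have hqR : (0:ℝ) < q := by exact_mod_cast hq1
  have hqN : q ≤ N := hq2.trans hQN
  set B : ℕ → Finset ℕ := fun a => (range ((N - a) / q + 1)).filter fun j => a + j * q ∈ A with hBdef
  have hmemB : ∀ a ∈ Icc 1 q, ∀ j, j < (N - a) / q + 1 ↔ a + j * q ∈ Icc 1 N := by
    intro a ha j
    rw [mem_Icc] at ha ⊢
    rw [Nat.lt_add_one_iff, Nat.le_div_iff_mul_le (by omega)]
    omega
  have hBa : ∀ a ∈ Icc 1 q, ((B a).card : ℝ) ≤
      (k - 1 : ℕ) * (P * (d * (((N:ℝ) / q + 1) * (1 / Q) + 1) + 1)) := by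
    intro a ha
    have h1 : ((B a).card : ℝ) ≤
        (k - 1 : ℕ) * (P * (d * ((((N - a) / q + 1 : ℕ) : ℝ) * (1 / Q) + 1) + 1)) := by
      refine progression hk hS (fun i => θ i * a + α i) (fun i => θ i * q - m i)
        (by positivity) hm (B a) ?_ ?_
      · intro j
        have e : point θ α (a + j * q) =
            fun i => Int.fract (θ i * a + α i + j * (θ i * q - m i)) := by
          funext i
          unfold point
          rw [Int.fract_eq_fract]
          exact ⟨j * m i, by push_cast; ring⟩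
        rw [hBdef]
        simp only
        rw [mem_filter, mem_range, hA, ← hmemB a ha j, ← e]
        tauto
      · intro j hj
        refine hfree (a + j * q) q (by omega) fun l hl => ?_
        have := (mem_filter.1 (hj l hl)).2
        convert this using 1
        ring
    refine h1.trans ?_
    have h2 : ((((N - a) / q + 1 : ℕ) : ℝ)) ≤ (N:ℝ) / q + 1 := by
      push_cast
      have : (((N - a) / q : ℕ) : ℝ) ≤ (N:ℝ) / q :=
        Nat.cast_div_le.trans (by
          gcongr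
          exact_mod_cast Nat.sub_le N a)
      linarith
    gcongr
  have hsub : A ⊆ (Icc 1 q).biUnion fun a => (B a).image fun j => a + j * q := by
    intro n hn
    have hnI := ((hA n).1 hn).1
    have hn1 := (mem_Icc.1 hnI).1
    have hdm := Nat.div_add_mod (n - 1) q
    have hml := Nat.mod_lt (n - 1) (show 0 < q by omega)
    have hne : (n - 1) % q + 1 + (n - 1) / q * q = n := by
      rw [mul_comm]
      omega
    have haI : (n - 1) % q + 1 ∈ Icc 1 q := by
      rw [mem_Icc]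
      omega
    rw [mem_biUnion]
    refine ⟨(n - 1) % q + 1, haI, mem_image.2 ⟨(n - 1) / q, ?_, hne⟩⟩
    rw [hBdef]
    simp only
    rw [mem_filter, mem_range, hmemB _ haI, hne]
    exact ⟨hnI, hn⟩
  have hcard : (A.card : ℝ) ≤ ∑ a ∈ Icc 1 q, ((B a).card : ℝ) := by
    have h1 := (card_le_card hsub).trans card_biUnion_le
    have h2 : ∑ a ∈ Icc 1 q, ((B a).image fun j => a + j * q).card ≤ ∑ a ∈ Icc 1 q, (B a).card :=
      Finset.sum_le_sum fun a _ => card_image_le
    exact_mod_cast h1.trans h2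
  have hqQ : (q:ℝ) ≤ (Q:ℝ) ^ d := by exact_mod_cast hq2
  have hqN' : (q:ℝ) ≤ N := by exact_mod_cast hqN
  calc (A.card : ℝ) ≤ ∑ a ∈ Icc 1 q, ((B a).card : ℝ) := hcard
    _ ≤ ∑ a ∈ Icc 1 q, (k - 1 : ℕ) * (P * (d * (((N:ℝ) / q + 1) * (1 / Q) + 1) + 1)) :=
        Finset.sum_le_sum hBa
    _ = (k - 1 : ℕ) * (P * (d * ((N + q) / Q) + q * (d + 1))) := by
        rw [sum_const, Nat.card_Icc, nsmul_eq_mul, Nat.add_sub_cancel]
        field_simp
        ring
    _ ≤ _ := by
        gcongr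
        linarith

end Pool.Agent.Q52.Bohr
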