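import Pool.Agent.Q52.Bohr

/-!
# Behrend's sets have Bohr dimension about `√(log N)`
-/

set_option autoImplicit false

open Finset

namespace Pool.Agent.Q52.Bohr

variable {d : ℕ}

/-- the previous coordinate -/
def prev (x : Fin d → ℝ) (i : Fin d) : ℝ := if h : (i:ℕ) = 0 then 0 else x ⟨i - 1, by omega⟩

/-- the linear map which turns the point into the digits -/
def lin (w : Fin d → ℝ) (x : Fin d → ℝ) : Fin d → ℝ := fun i => w i * x i - prev x i

lemma lin_line (w x v : Fin d → ℝ) (t : ℝ) (i : Fin d) :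
    lin w (x + t • v) i = lin w x i + t * lin w v i := by
  unfold lin prev
  by_cases h : (i:ℕ) = 0
  · simp only [dif_pos h, Pi.add_apply, Pi.smul_apply, smul_eq_mul]
    ring
  · simp only [dif_neg h, Pi.add_apply, Pi.smul_apply, smul_eq_mul]
    ring

/-- the integral sphere in a box -/
def sph (w : Fin d → ℝ) (c r : ℝ) : Set (Fin d → ℝ) :=
  {x | (∀ i, 0 ≤ lin w x i) ∧ (∀ i, lin w x i ≤ c) ∧ ∑ i, lin w x i ^ 2 = r}

lemma sph_simple (w : Fin d → ℝ) (c r : ℝ) : LineSimple 2 (sph w c r) := by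
  intro x v
  set a := lin w x with ha
  set b := lin w v with hb
  set B := ∑ i, b i ^ 2 with hB
  set t0 : ℝ := -(∑ i, a i * b i) / B with ht0
  set F : ℝ → Prop := fun t => (∀ i, 0 ≤ a i + t * b i) ∧ (∀ i, a i + t * b i ≤ c) ∧
    ∑ i, (a i + t * b i) ^ 2 = r with hF
  have hmem : ∀ t, x + t • v ∈ sph w c r ↔ F t := by
    intro t
    unfold sph
    rw [Set.mem_ofPred_eq]
    simp only [lin_line]
    rfl
  have hexp : ∀ t, ∑ i, (a i + t * b i) ^ 2 = ∑ i, a i ^ 2 + 2 * t * ∑ i, a i * b i + t ^ 2 * B := by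
    intro t
    rw [hB, mul_sum, mul_sum, ← sum_add_distrib, ← sum_add_distrib]
    exact sum_congr rfl fun i _ => by ring
  have key : ∀ t1 t2 t : ℝ, F t1 → F t2 → t1 ≤ t → t ≤ t2 → (t2 ≤ t0 ∨ t0 ≤ t1) → F t := by
    intro t1 t2 t h1 h2 ht1 ht2 hside
    refine ⟨fun i => ?_, fun i => ?_, ?_⟩
    · have u1 := h1.1 i
      have u2 := h2.1 i
      rcases le_total 0 (b i) with hb | hb <;> nlinarith
    · have u1 := h1.2.1 i
      have u2 := h2.2.1 i
      rcases le_total 0 (b i) with hb | hb <;> nlinarith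
    · have hB0 : 0 ≤ B := sum_nonneg fun i _ => sq_nonneg _
      rcases hB0.eq_or_lt with hz | hp
      · have hbz : ∀ i, b i = 0 := by
          intro i
          have := (sum_eq_zero_iff_of_nonneg fun i _ => sq_nonneg (b i)).1 hz.symm i (mem_univ i)
          exact pow_eq_zero_iff (two_ne_zero) |>.1 this
        have h3 := h1.2.2
        simp only [hbz, mul_zero, add_zero] at h3 ⊢
        exact h3
      · have e1 := h1.2.2
        have e2 := h2.2.2
        rw [hexp] at e1 e2
        have hAB : ∑ i, a i * b i = -(t0 * B) := by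
          rw [ht0]
          field_simp
        rw [hAB] at e1 e2
        have h4 : (t1 - t0) ^ 2 = (t2 - t0) ^ 2 := by
          have : B * ((t1 - t0) ^ 2 - (t2 - t0) ^ 2) = 0 := by nlinarith
          rcases mul_eq_zero.1 this with h | h
          · exact absurd h hp.ne'
          · linarith
        have h5 : t1 = t2 := by
          rcases hside with hs | hs
          · nlinarith [sq_nonneg (t1 - t2)]
          · nlinarith [sq_nonneg (t1 - t2)]
        have h6 : t = t1 := le_antisymm (by rw [h5]; exact ht2) ht1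
        rw [h6]
        exact h1.2.2
  refine ⟨![{t | F t ∧ t ≤ t0}, {t | F t ∧ t0 ≤ t}], ?_, ?_⟩
  · intro i
    fin_cases i
    · exact ⟨fun t1 h1 t2 h2 t ht => ⟨key t1 t2 t h1.1 h2.1 ht.1 ht.2 (Or.inl h2.2),
        ht.2.trans h2.2⟩⟩
    · exact ⟨fun t1 h1 t2 h2 t ht => ⟨key t1 t2 t h1.1 h2.1 ht.1 ht.2 (Or.inr h1.2),
        h1.2.trans ht.1⟩⟩
  · ext t
    rw [Set.mem_iUnion]
    constructor
    · intro h
      have hFt := (hmem t).1 h
      rcases le_total t t0 with ht | ht
      · exact ⟨0, hFt, ht⟩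
      · exact ⟨1, hFt, ht⟩
    · rintro ⟨i, hi⟩
      refine (hmem t).2 ?_
      fin_cases i
      · exact hi.1
      · exact hi.1

/-- the denominators -/
def den (b M : ℕ) (i : Fin d) : ℕ := if (i:ℕ) + 1 < d then b ^ ((i:ℕ) + 1) else b ^ (i:ℕ) * M

/-- the digits -/
def dig (b n : ℕ) (i : Fin d) : ℕ := if (i:ℕ) + 1 < d then n / b ^ (i:ℕ) % b else n / b ^ (i:ℕ)

lemma fract_den {b M n : ℕ} (i : Fin d) :
    Int.fract ((n:ℝ) / den b M i) = ((n % den b M i : ℕ) : ℝ) / den b M i :=
  Int.fract_div_natCast_eq_div_natCast_mod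

lemma lin_point {b M n : ℕ} (hb : 0 < b) (hM : 0 < M) (hn : n < b ^ (d - 1) * M) (i : Fin d) :
    lin (fun i : Fin d => (den b M i : ℝ) / b ^ (i:ℕ))
      (fun i => Int.fract ((n:ℝ) / den b M i)) i = dig b n i := by
  have hbi : ((b:ℝ) ^ (i:ℕ)) ≠ 0 := by positivity
  have hprev : prev (fun i : Fin d => Int.fract ((n:ℝ) / den b M i)) i =
      ((n % b ^ (i:ℕ) : ℕ) : ℝ) / b ^ (i:ℕ) := by
    unfold prev
    by_cases h : (i:ℕ) = 0
    · rw [dif_pos h, h]
      simp [Nat.mod_one]
    · rw [dif_neg h]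
      simp only
      rw [fract_den]
      have h1 : den (d := d) b M ⟨(i:ℕ) - 1, by omega⟩ = b ^ (i:ℕ) := by
        unfold den
        have h2 := i.2
        rw [if_pos (show ((⟨(i:ℕ) - 1, by omega⟩ : Fin d) : ℕ) + 1 < d by simp only; omega)]
        congr 1
        simp only
        omega
      rw [h1]
      push_cast
      rfl
  have hden : ((den b M i : ℕ) : ℝ) ≠ 0 := by
    have : 0 < den b M i := by
      unfold den
      split_ifs <;> positivity
    positivity
  unfold lin
  rw [hprev]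
  simp only
  rw [fract_den]
  have e1 : (den b M i : ℝ) / b ^ (i:ℕ) * (((n % den b M i : ℕ) : ℝ) / den b M i) =
      ((n % den b M i : ℕ) : ℝ) / b ^ (i:ℕ) := by
    field_simp
  rw [e1, ← sub_div, div_eq_iff hbi]
  have e2 : n % den b M i = n % b ^ (i:ℕ) + b ^ (i:ℕ) * dig b n i := by
    unfold den dig
    by_cases h : (i:ℕ) + 1 < d
    · rw [if_pos h, if_pos h, Nat.mod_pow_succ]
    · rw [if_neg h, if_neg h]
      have hi : (i:ℕ) = d - 1 := by have := i.2; omega
      rw [← hi] at hn
      rw [Nat.mod_eq_of_lt hn]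
      exact (Nat.mod_add_div n _).symm
  rw [e2]
  push_cast
  ring

lemma map_dig (b : ℕ) : ∀ (d n : ℕ), 0 < d → Behrend.map b (dig (d := d) b n) = n := by
  intro d
  induction d with
  | zero => intro n h; omega
  | succ d ih =>
    intro n _
    rcases Nat.eq_zero_or_pos d with h0 | h0
    · subst h0
      rw [Behrend.map_succ']
      have : dig (d := 1) b n 0 = n := by
        unfold dig
        simp
      rw [this]
      simp
    · rw [Behrend.map_succ']
      have h1 : dig (d := d + 1) b n 0 = n % b := by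
        unfold dig
        rw [if_pos (by simp; omega)]
        simp
      have h2 : dig (d := d + 1) b n ∘ Fin.succ = dig (d := d) b (n / b) := by
        funext i
        unfold dig
        simp only [Function.comp, Fin.val_succ]
        have e : n / b ^ ((i:ℕ) + 1) = n / b / b ^ (i:ℕ) := by
          rw [Nat.div_div_eq_div_mul, pow_succ, mul_comm]
        rw [e]
        by_cases h : (i:ℕ) + 1 < d
        · rw [if_pos h, if_pos (by omega)]
        · rw [if_neg h, if_neg (by omega)]
      rw [h1, h2, ih (n / b) h0, mul_comm]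
      exact Nat.mod_add_div n b

end Pool.Agent.Q52.Bohr
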