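import Mathlib

/-!
# Abstract upper quasi-densities on sets of integers: tools
-/

namespace Pool.Agent.Q52.Dens

/-- `k · X + h` for a set `X` of integers. -/
def affineImage (k h : ℕ) (X : Set ℤ) : Set ℤ := (fun x : ℤ => (k : ℤ) * x + (h : ℤ)) '' X

/-- `k · X + h` with `h` an arbitrary integer. -/
def aff (k : ℕ) (h : ℤ) (X : Set ℤ) : Set ℤ := (fun x : ℤ => (k : ℤ) * x + h) '' X

theorem affineImage_eq_aff (k h : ℕ) (X : Set ℤ) : affineImage k h X = aff k (h : ℤ) X := rfl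

/-- residues of `X` modulo `m`, in `[0, m)`. -/
def res (m : ℕ) (X : Set ℤ) : Set ℤ := (fun x : ℤ => x % (m : ℤ)) '' X

theorem res_subset (m : ℕ) (hm : 0 < m) (X : Set ℤ) : res m X ⊆ Set.Ico 0 (m : ℤ) := by
  rintro y ⟨x, -, rfl⟩
  have : (0 : ℤ) < m := by exact_mod_cast hm
  exact ⟨Int.emod_nonneg _ this.ne', Int.emod_lt_of_pos _ this⟩

theorem res_finite (m : ℕ) (hm : 0 < m) (X : Set ℤ) : (res m X).Finite :=
  (Set.finite_Ico _ _).subset (res_subset m hm X)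

theorem res_mono (m : ℕ) {X Y : Set ℤ} (h : X ⊆ Y) : res m X ⊆ res m Y := Set.image_mono h

theorem res_union (m : ℕ) (X Y : Set ℤ) : res m (X ∪ Y) = res m X ∪ res m Y :=
  Set.image_union _ _ _

/-- number of residues. -/
noncomputable def rc (m : ℕ) (X : Set ℤ) : ℕ := (res m X).ncard

theorem rc_le (m : ℕ) (hm : 0 < m) (X : Set ℤ) : rc m X ≤ m := by
  unfold rc
  calc (res m X).ncard ≤ (Set.Ico 0 (m : ℤ)).ncard :=
        Set.ncard_le_ncard (res_subset m hm X) (Set.finite_Ico _ _)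
    _ = m := by
        rw [← Finset.coe_Ico, Set.ncard_coe_finset]
        simp

theorem rc_mono (m : ℕ) (hm : 0 < m) {X Y : Set ℤ} (h : X ⊆ Y) : rc m X ≤ rc m Y :=
  Set.ncard_le_ncard (res_mono m h) (res_finite m hm Y)

theorem rc_union_le (m : ℕ) (X Y : Set ℤ) : rc m (X ∪ Y) ≤ rc m X + rc m Y := by
  unfold rc
  rw [res_union]
  exact Set.ncard_union_le _ _

theorem rc_mul_le (m n : ℕ) (hm : 0 < m) (hn : 0 < n) (X : Set ℤ) :
    rc (m * n) X ≤ n * rc m X := by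
  have hm' : (0 : ℤ) < m := by exact_mod_cast hm
  have hn' : (0 : ℤ) < n := by exact_mod_cast hn
  have hfin := res_finite m hm X
  have hsub : res (m * n) X ⊆ (fun p : ℤ × ℤ => (m : ℤ) * p.1 + p.2) ''
      ((Set.Ico 0 (n : ℤ)) ×ˢ (res m X)) := by
    rintro y ⟨x, hx, rfl⟩
    refine ⟨((x % ((m * n : ℕ) : ℤ)) / m, x % (m : ℤ)), ⟨⟨?_, ?_⟩, ⟨x, hx, rfl⟩⟩, ?_⟩
    · exact Int.ediv_nonneg (Int.emod_nonneg _ (by positivity)) hm'.le
    · apply Int.ediv_lt_of_lt_mul hm'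
      have := Int.emod_lt_of_pos x (show (0 : ℤ) < ((m * n : ℕ) : ℤ) by positivity)
      push_cast at this ⊢
      linarith [mul_comm (m : ℤ) n]
    · show (m : ℤ) * ((x % ((m * n : ℕ) : ℤ)) / m) + x % (m : ℤ) = x % ((m * n : ℕ) : ℤ)
      have h1 : x % (m : ℤ) = (x % ((m * n : ℕ) : ℤ)) % m := by
        rw [Int.emod_emod_of_dvd]
        push_cast
        exact dvd_mul_right _ _
      rw [h1]
      exact Int.mul_ediv_add_emod _ _
  unfold rc
  have hfin2 : ((Set.Ico 0 (n : ℤ)) ×ˢ (res m X)).Finite := (Set.finite_Ico _ _).prod hfin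
  calc (res (m * n) X).ncard
      ≤ ((fun p : ℤ × ℤ => (m : ℤ) * p.1 + p.2) '' ((Set.Ico 0 (n : ℤ)) ×ˢ (res m X))).ncard :=
        Set.ncard_le_ncard hsub (hfin2.image _)
    _ ≤ ((Set.Ico 0 (n : ℤ)) ×ˢ (res m X)).ncard := Set.ncard_image_le hfin2
    _ = (Set.Ico 0 (n : ℤ)).ncard * (res m X).ncard := Set.ncard_prod
    _ = n * (res m X).ncard := by
        congr 1
        rw [← Finset.coe_Ico, Set.ncard_coe_finset]
        simp

theorem rc_aff (k m : ℕ) (hk : 0 < k) (h : ℤ) (X : Set ℤ) :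
    rc (k * m) (aff k h X) = rc m X := by
  have hk' : (0 : ℤ) < k := by exact_mod_cast hk
  unfold rc
  have : res (k * m) (aff k h X) = (fun r : ℤ => ((k : ℤ) * r + h) % ((k * m : ℕ) : ℤ)) ''
      (res m X) := by
    unfold res aff
    rw [Set.image_image, Set.image_image]
    apply Set.image_congr
    intro x _
    have : (k : ℤ) * x + h ≡ (k : ℤ) * (x % (m : ℤ)) + h [ZMOD ((k * m : ℕ) : ℤ)] := by
      apply Int.ModEq.add_right
      push_cast
      exact (Int.mod_modEq x m).symm.mul_left' 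
    exact this
  rw [this]
  apply Set.ncard_image_of_injOn
  rintro _ ⟨x, _, rfl⟩ _ ⟨y, _, rfl⟩ hxy
  have h1 : (k : ℤ) * (x % (m : ℤ)) + h ≡ (k : ℤ) * (y % (m : ℤ)) + h [ZMOD ((k * m : ℕ) : ℤ)] :=
    hxy
  have h2 := Int.ModEq.add_right_cancel' h h1
  push_cast at h2
  have h3 : (x % (m : ℤ)) ≡ (y % (m : ℤ)) [ZMOD m] := Int.ModEq.mul_left_cancel' hk'.ne' h2
  have h4 : (x % (m : ℤ)) % m = (y % (m : ℤ)) % m := h3
  rw [Int.emod_emod_of_dvd _ dvd_rfl, Int.emod_emod_of_dvd _ dvd_rfl] at h4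
  exact h4

/-- upper Buck density. -/
noncomputable def buck (X : Set ℤ) : ℝ := ⨅ m : ℕ, (rc (m + 1) X : ℝ) / ((m + 1 : ℕ) : ℝ)

theorem buck_bdd (X : Set ℤ) :
    BddBelow (Set.range fun m : ℕ => (rc (m + 1) X : ℝ) / ((m + 1 : ℕ) : ℝ)) :=
  ⟨0, by rintro _ ⟨m, rfl⟩; positivity⟩

theorem buck_le (X : Set ℤ) {m : ℕ} (hm : 0 < m) : buck X ≤ (rc m X : ℝ) / (m : ℝ) := by
  obtain ⟨n, rfl⟩ := Nat.exists_eq_succ_of_ne_zero hm.ne'
  exact ciInf_le (buck_bdd X) n

theorem le_buck (X : Set ℤ) (c : ℝ) (h : ∀ m : ℕ, 0 < m → c ≤ (rc m X : ℝ) / (m : ℝ)) :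
    c ≤ buck X := le_ciInf fun m => h (m + 1) (Nat.succ_pos m)

theorem buck_nonneg (X : Set ℤ) : 0 ≤ buck X := le_buck X 0 fun m _ => by positivity

theorem buck_le_one (X : Set ℤ) : buck X ≤ 1 := by
  refine (buck_le X Nat.one_pos).trans ?_
  have := rc_le 1 Nat.one_pos X
  simpa using this

theorem buck_mono {X Y : Set ℤ} (h : X ⊆ Y) : buck X ≤ buck Y := by
  apply le_buck
  intro m hm
  refine (buck_le X hm).trans ?_
  gcongr
  exact rc_mono m hm h

theorem rc_div_mul_le (m n : ℕ) (hm : 0 < m) (hn : 0 < n) (X : Set ℤ) :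
    (rc (m * n) X : ℝ) / ((m * n : ℕ) : ℝ) ≤ (rc m X : ℝ) / (m : ℝ) := by
  have h1 : (rc (m * n) X : ℝ) ≤ n * rc m X := by exact_mod_cast rc_mul_le m n hm hn X
  have hm' : (0 : ℝ) < m := by exact_mod_cast hm
  have hn' : (0 : ℝ) < n := by exact_mod_cast hn
  push_cast
  rw [div_le_div_iff₀ (by positivity) hm']
  calc (rc (m * n) X : ℝ) * m ≤ (n * rc m X) * m := by gcongr
    _ = rc m X * (m * n) := by ring

theorem buck_union_le (X Y : Set ℤ) : buck (X ∪ Y) ≤ buck X + buck Y := by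
  have key : ∀ m n : ℕ, 0 < m → 0 < n →
      buck (X ∪ Y) ≤ (rc m X : ℝ) / m + (rc n Y : ℝ) / n := by
    intro m n hm hn
    have h1 := buck_le (X ∪ Y) (Nat.mul_pos hm hn)
    have h2 := rc_div_mul_le m n hm hn X
    have h3 := rc_div_mul_le n m hn hm Y
    rw [mul_comm n m] at h3
    have h4 : (rc (m * n) (X ∪ Y) : ℝ) ≤ rc (m * n) X + rc (m * n) Y := by
      exact_mod_cast rc_union_le (m * n) X Y
    calc buck (X ∪ Y) ≤ (rc (m * n) (X ∪ Y) : ℝ) / ((m * n : ℕ) : ℝ) := h1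
      _ ≤ (rc (m * n) X + rc (m * n) Y) / ((m * n : ℕ) : ℝ) := by gcongr
      _ = (rc (m * n) X : ℝ) / ((m * n : ℕ) : ℝ) + (rc (m * n) Y : ℝ) / ((m * n : ℕ) : ℝ) :=
          add_div _ _ _
      _ ≤ _ := add_le_add h2 h3
  have h1 : ∀ n : ℕ, 0 < n → buck (X ∪ Y) - (rc n Y : ℝ) / n ≤ buck X := by
    intro n hn
    apply le_buck
    intro m hm
    linarith [key m n hm hn]
  have h2 : buck (X ∪ Y) - buck X ≤ buck Y := by
    apply le_buck
    intro n hn
    linarith [h1 n hn]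
  linarith

theorem buck_aff (k : ℕ) (hk : 0 < k) (h : ℤ) (X : Set ℤ) :
    buck (aff k h X) = 1 / (k : ℝ) * buck X := by
  have hk' : (0 : ℝ) < k := by exact_mod_cast hk
  apply le_antisymm
  · have : (k : ℝ) * buck (aff k h X) ≤ buck X := by
      apply le_buck
      intro m hm
      have h1 := buck_le (aff k h X) (Nat.mul_pos hk hm)
      rw [rc_aff k m hk h X] at h1
      push_cast at h1
      have hm' : (0 : ℝ) < m := by exact_mod_cast hm
      calc (k : ℝ) * buck (aff k h X) ≤ k * (rc m X / (k * m)) := by gcongr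
        _ = rc m X / m := by field_simp
    rw [one_div, ← div_eq_inv_mul, le_div_iff₀ hk']
    linarith
  · apply le_buck
    intro m hm
    have hm' : (0 : ℝ) < m := by exact_mod_cast hm
    have h1 := buck_le X hm
    have h2 := rc_div_mul_le m k hm hk (aff k h X)
    rw [mul_comm m k, rc_aff k m hk h X] at h2
    push_cast at h2
    calc 1 / (k : ℝ) * buck X ≤ 1 / (k : ℝ) * (rc m X / m) := by gcongr
      _ = rc m X / (k * m) := by field_simp
      _ ≤ _ := h2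

theorem buck_eq_one (X : Set ℤ)
    (h : ∀ m : ℕ, 0 < m → ∀ r : ℤ, ∃ x ∈ X, x % (m : ℤ) = r % (m : ℤ)) : buck X = 1 := by
  apply le_antisymm (buck_le_one X)
  apply le_buck
  intro m hm
  have hm' : (0 : ℝ) < m := by exact_mod_cast hm
  have : Set.Ico 0 (m : ℤ) ⊆ res m X := by
    intro r hr
    obtain ⟨x, hx, hxr⟩ := h m hm r
    refine ⟨x, hx, ?_⟩
    show x % (m : ℤ) = r
    rw [hxr]
    exact Int.emod_eq_of_lt hr.1 hr.2
  have h2 : m ≤ rc m X := by
    unfold rc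
    calc m = (Set.Ico 0 (m : ℤ)).ncard := by
          rw [← Finset.coe_Ico, Set.ncard_coe_finset]
          simp
      _ ≤ _ := Set.ncard_le_ncard this (res_finite m hm X)
  rw [le_div_iff₀ hm', one_mul]
  exact_mod_cast h2

/-- finite exact covers of `X` -/
def IsCover (X : Set ℤ) (L : List (Set ℤ)) : Prop := (⋃ P ∈ L, P) = X

/-- infimum over exact finite covers. -/
noncomputable def cov (φ : Set ℤ → ℝ) (X : Set ℤ) : ℝ :=
  sInf {s : ℝ | ∃ L : List (Set ℤ), (⋃ P ∈ L, P) = X ∧ s = (L.map φ).sum}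

theorem sum_map_nonneg {φ : Set ℤ → ℝ} (hφ : ∀ X, 0 ≤ φ X) (L : List (Set ℤ)) :
    0 ≤ (L.map φ).sum := by
  apply List.sum_nonneg
  intro x hx
  obtain ⟨P, _, rfl⟩ := List.mem_map.1 hx
  exact hφ P

theorem cov_bdd {φ : Set ℤ → ℝ} (hφ : ∀ X, 0 ≤ φ X) (X : Set ℤ) :
    BddBelow {s : ℝ | ∃ L : List (Set ℤ), (⋃ P ∈ L, P) = X ∧ s = (L.map φ).sum} :=
  ⟨0, by rintro _ ⟨L, _, rfl⟩; exact sum_map_nonneg hφ L⟩

theorem cov_le {φ : Set ℤ → ℝ} (hφ : ∀ X, 0 ≤ φ X) (X : Set ℤ) (L : List (Set ℤ))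
    (hL : (⋃ P ∈ L, P) = X) : cov φ X ≤ (L.map φ).sum :=
  csInf_le (cov_bdd hφ X) ⟨L, hL, rfl⟩

theorem cov_le_self {φ : Set ℤ → ℝ} (hφ : ∀ X, 0 ≤ φ X) (X : Set ℤ) : cov φ X ≤ φ X := by
  have := cov_le hφ X [X] (by simp)
  simpa using this

theorem le_cov (φ : Set ℤ → ℝ) (X : Set ℤ) (c : ℝ)
    (h : ∀ L : List (Set ℤ), (⋃ P ∈ L, P) = X → c ≤ (L.map φ).sum) : c ≤ cov φ X := by
  apply le_csInf
  · exact ⟨_, [X], by simp, rfl⟩
  · rintro _ ⟨L, hL, rfl⟩
    exact h L hL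

theorem cov_nonneg {φ : Set ℤ → ℝ} (hφ : ∀ X, 0 ≤ φ X) (X : Set ℤ) : 0 ≤ cov φ X :=
  le_cov φ X 0 fun L _ => sum_map_nonneg hφ L

theorem cov_union_le {φ : Set ℤ → ℝ} (hφ : ∀ X, 0 ≤ φ X) (X Y : Set ℤ) :
    cov φ (X ∪ Y) ≤ cov φ X + cov φ Y := by
  have key : ∀ L M : List (Set ℤ), (⋃ P ∈ L, P) = X → (⋃ P ∈ M, P) = Y →
      cov φ (X ∪ Y) ≤ (L.map φ).sum + (M.map φ).sum := by
    intro L M hL hM
    have : (⋃ P ∈ L ++ M, P) = X ∪ Y := by
      rw [← hL, ← hM]
      ext x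
      simp only [List.mem_append, Set.mem_iUnion, Set.mem_union, exists_prop]
      constructor
      · rintro ⟨P, hP | hP, hx⟩
        · exact Or.inl ⟨P, hP, hx⟩
        · exact Or.inr ⟨P, hP, hx⟩
      · rintro (⟨P, hP, hx⟩ | ⟨P, hP, hx⟩)
        · exact ⟨P, Or.inl hP, hx⟩
        · exact ⟨P, Or.inr hP, hx⟩
    have h1 := cov_le hφ (X ∪ Y) (L ++ M) this
    simpa using h1
  have h1 : ∀ M : List (Set ℤ), (⋃ P ∈ M, P) = Y → cov φ (X ∪ Y) - (M.map φ).sum ≤ cov φ X := by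
    intro M hM
    apply le_cov
    intro L hL
    linarith [key L M hL hM]
  have h2 : cov φ (X ∪ Y) - cov φ X ≤ cov φ Y := by
    apply le_cov
    intro M hM
    linarith [h1 M hM]
  linarith

theorem aff_injective (k : ℕ) (hk : 0 < k) (h : ℤ) :
    Function.Injective (fun x : ℤ => (k : ℤ) * x + h) := by
  intro x y hxy
  have hk' : (k : ℤ) ≠ 0 := by exact_mod_cast hk.ne'
  have : (k : ℤ) * x = k * y := by
    have := hxy
    simp only at this
    linarith
  exact mul_left_cancel₀ hk' this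

/-- If `φ` scales correctly on all subsets of `H`, so does `cov φ`. -/
theorem cov_aff {φ : Set ℤ → ℝ} (hφ : ∀ X, 0 ≤ φ X) (k : ℕ) (hk : 0 < k) (h : ℤ) (X : Set ℤ)
    (hs : ∀ A : Set ℤ, A ⊆ X → φ (aff k h A) = 1 / (k : ℝ) * φ A) :
    cov φ (aff k h X) = 1 / (k : ℝ) * cov φ X := by
  have hk' : (0 : ℝ) < k := by exact_mod_cast hk
  have hsum : ∀ L : List (Set ℤ), (∀ P ∈ L, P ⊆ X) →
      ((L.map (aff k h)).map φ).sum = 1 / (k : ℝ) * (L.map φ).sum := by
    intro L hL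
    rw [List.map_map, ← List.sum_map_mul_left]
    congr 1
    apply List.map_congr_left
    intro P hP
    exact hs P (hL P hP)
  apply le_antisymm
  · have : (k : ℝ) * cov φ (aff k h X) ≤ cov φ X := by
      apply le_cov
      intro L hL
      have hLX : ∀ P ∈ L, P ⊆ X := by
        intro P hP x hx
        rw [← hL]
        exact Set.mem_biUnion hP hx
      have h1 := cov_le hφ (aff k h X) (L.map (aff k h)) (by
        rw [← hL]
        ext y
        simp only [aff, List.mem_map, Set.mem_iUnion, exists_prop, Set.mem_image]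
        constructor
        · rintro ⟨_, ⟨P, hP, rfl⟩, x, hx, rfl⟩
          exact ⟨x, ⟨P, hP, hx⟩, rfl⟩
        · rintro ⟨x, ⟨P, hP, hx⟩, rfl⟩
          exact ⟨_, ⟨P, hP, rfl⟩, x, hx, rfl⟩)
      rw [hsum L hLX] at h1
      calc (k : ℝ) * cov φ (aff k h X) ≤ k * (1 / (k : ℝ) * (L.map φ).sum) := by gcongr
        _ = (L.map φ).sum := by field_simp
    rw [one_div, ← div_eq_inv_mul, le_div_iff₀ hk']
    linarith
  · apply le_cov
    intro L hL
    -- pull back
    let f : ℤ → ℤ := fun x => (k : ℤ) * x + h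
    have hf : Function.Injective f := aff_injective k hk h
    have hpull : ∀ P ∈ L, aff k h (f ⁻¹' P) = P := by
      intro P hP
      have hsub : P ⊆ aff k h X := by
        intro x hx
        rw [← hL]
        exact Set.mem_biUnion hP hx
      show f '' (f ⁻¹' P) = P
      rw [Set.image_preimage_eq_iff]
      exact hsub.trans (Set.image_subset_range _ _)
    have hpullX : ∀ P ∈ L, f ⁻¹' P ⊆ X := by
      intro P hP x hx
      have : f x ∈ aff k h X := by
        rw [← hL]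
        exact Set.mem_biUnion hP hx
      obtain ⟨x', hx', hxx⟩ := this
      rwa [← hf hxx]
    have hmap : (L.map (fun P => f ⁻¹' P)).map (aff k h) = L := by
      rw [List.map_map]
      conv_rhs => rw [← List.map_id L]
      apply List.map_congr_left
      intro P hP
      exact hpull P hP
    have h1 := hsum (L.map (fun P => f ⁻¹' P)) (by
      intro Q hQ
      obtain ⟨P, hP, rfl⟩ := List.mem_map.1 hQ
      exact hpullX P hP)
    rw [hmap] at h1
    rw [h1]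
    have h2 : cov φ X ≤ ((L.map (fun P => f ⁻¹' P)).map φ).sum := by
      apply cov_le hφ
      ext x
      constructor
      · intro hx
        simp only [Set.mem_iUnion, List.mem_map, exists_prop] at hx
        obtain ⟨_, ⟨P, hP, rfl⟩, hx⟩ := hx
        exact hpullX P hP hx
      · intro hx
        have : f x ∈ aff k h X := ⟨x, hx, rfl⟩
        rw [← hL] at this
        simp only [Set.mem_iUnion, exists_prop] at this
        obtain ⟨P, hP, hfx⟩ := this
        simp only [Set.mem_iUnion, List.mem_map, exists_prop]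
        exact ⟨_, ⟨P, hP, rfl⟩, hfx⟩
    gcongr

end Pool.Agent.Q52.Dens
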