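import Mathlib
import Pool.Agent.Q52.Dens

/-!
# Null sets, the modified Buck density, and a sparse set meeting all residue classes
-/

namespace Pool.Agent.Q52.Dens

/-- counting function on `[-n, n]`. -/
noncomputable def cnt (S : Set ℤ) (n : ℕ) : ℕ := (S ∩ Set.Icc (-(n : ℤ)) n).ncard

theorem cnt_fin (S : Set ℤ) (n : ℕ) : (S ∩ Set.Icc (-(n : ℤ)) n).Finite :=
  (Set.finite_Icc _ _).subset Set.inter_subset_right

/-- null sets. -/
def IsNull (S : Set ℤ) : Prop :=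
  ∀ ε : ℝ, 0 < ε → ∃ N : ℕ, ∀ n : ℕ, N ≤ n → (cnt S n : ℝ) ≤ ε * n

theorem IsNull.mono {S T : Set ℤ} (h : IsNull T) (hST : S ⊆ T) : IsNull S := by
  intro ε hε
  obtain ⟨N, hN⟩ := h ε hε
  refine ⟨N, fun n hn => le_trans ?_ (hN n hn)⟩
  have : cnt S n ≤ cnt T n :=
    Set.ncard_le_ncard (Set.inter_subset_inter_left _ hST) (cnt_fin T n)
  exact_mod_cast this

theorem IsNull.union {S T : Set ℤ} (hS : IsNull S) (hT : IsNull T) : IsNull (S ∪ T) := by
  intro ε hε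
  obtain ⟨N, hN⟩ := hS (ε / 2) (by positivity)
  obtain ⟨M, hM⟩ := hT (ε / 2) (by positivity)
  refine ⟨max N M, fun n hn => ?_⟩
  have h1 := hN n ((le_max_left _ _).trans hn)
  have h2 := hM n ((le_max_right _ _).trans hn)
  have h3 : cnt (S ∪ T) n ≤ cnt S n + cnt T n := by
    unfold cnt
    rw [Set.union_inter_distrib_right]
    exact Set.ncard_union_le _ _
  have h4 : (cnt (S ∪ T) n : ℝ) ≤ cnt S n + cnt T n := by exact_mod_cast h3
  linarith

theorem isNull_empty : IsNull ∅ := by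
  intro ε hε
  refine ⟨0, fun n _ => ?_⟩
  have : cnt ∅ n = 0 := by simp [cnt]
  rw [this]
  push_cast
  positivity

theorem IsNull.aff {S : Set ℤ} (hS : IsNull S) (k : ℕ) (hk : 0 < k) (h : ℤ) :
    IsNull (aff k h S) := by
  intro ε hε
  obtain ⟨N, hN⟩ := hS (ε / 2) (by positivity)
  refine ⟨max N h.natAbs, fun n hn => ?_⟩
  have hn1 : N ≤ n := (le_max_left _ _).trans hn
  have hn2 : h.natAbs ≤ n := (le_max_right _ _).trans hn
  have h1 := hN (n + h.natAbs) (by omega)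
  have hk' : (1 : ℤ) ≤ k := by exact_mod_cast hk
  have hsub : Dens.aff k h S ∩ Set.Icc (-(n : ℤ)) n ⊆
      (fun x : ℤ => (k : ℤ) * x + h) '' (S ∩ Set.Icc (-((n + h.natAbs : ℕ) : ℤ))
        ((n + h.natAbs : ℕ) : ℤ)) := by
    rintro _ ⟨⟨x, hx, rfl⟩, hlo, hhi⟩
    refine ⟨x, ⟨hx, ?_, ?_⟩, rfl⟩
    · simp only at hlo
      by_contra hcon
      push Not at hcon
      have h5 : (0 : ℤ) ≤ (n + h.natAbs : ℕ) := by positivity
      have h6 : (k : ℤ) * x ≤ x := by nlinarith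
      push_cast at hcon h6
      have h7 := neg_abs_le h
      have h8 := le_abs_self h
      linarith
    · simp only at hhi
      by_contra hcon
      push Not at hcon
      have h5 : (0 : ℤ) ≤ (n + h.natAbs : ℕ) := by positivity
      have h6 : x ≤ (k : ℤ) * x := by nlinarith
      push_cast at hcon h6
      have h7 := neg_abs_le h
      have h8 := le_abs_self h
      linarith
  have h2 : cnt (Dens.aff k h S) n ≤ cnt S (n + h.natAbs) := by
    unfold cnt
    calc _ ≤ _ := Set.ncard_le_ncard hsub ((cnt_fin S _).image _)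
      _ ≤ _ := Set.ncard_image_le (cnt_fin S _)
  have h3 : (cnt (Dens.aff k h S) n : ℝ) ≤ cnt S (n + h.natAbs) := by exact_mod_cast h2
  have h4 : ((n + h.natAbs : ℕ) : ℝ) ≤ 2 * n := by
    push_cast
    have : (h.natAbs : ℝ) ≤ n := by exact_mod_cast hn2
    push_cast at this
    linarith
  calc (cnt (Dens.aff k h S) n : ℝ) ≤ ε / 2 * ((n + h.natAbs : ℕ) : ℝ) := h3.trans h1
    _ ≤ ε / 2 * (2 * n) := by gcongr
    _ = ε * n := by ring

theorem IsNull.preimage {S : Set ℤ} (hS : IsNull S) (k : ℕ) (hk : 0 < k) (h : ℤ) :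
    IsNull ((fun x : ℤ => (k : ℤ) * x + h) ⁻¹' S) := by
  intro ε hε
  obtain ⟨N, hN⟩ := hS (ε / (k + 1)) (by positivity)
  refine ⟨max N h.natAbs, fun n hn => ?_⟩
  have hn1 : N ≤ n := (le_max_left _ _).trans hn
  have hn2 : h.natAbs ≤ n := (le_max_right _ _).trans hn
  have h1 := hN (k * n + h.natAbs) (by
    have := Nat.le_mul_of_pos_left n hk
    omega)
  have hk' : (1 : ℤ) ≤ k := by exact_mod_cast hk
  have hsub : (fun x : ℤ => (k : ℤ) * x + h) '' (((fun x : ℤ => (k : ℤ) * x + h) ⁻¹' S) ∩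
      Set.Icc (-(n : ℤ)) n) ⊆
      (S ∩ Set.Icc (-((k * n + h.natAbs : ℕ) : ℤ)) ((k * n + h.natAbs : ℕ) : ℤ)) := by
    rintro _ ⟨x, ⟨hx, hlo, hhi⟩, rfl⟩
    refine ⟨hx, ?_, ?_⟩
    · show -((k * n + h.natAbs : ℕ) : ℤ) ≤ (k : ℤ) * x + h
      push_cast
      have h6 : -((k : ℤ) * n) ≤ (k : ℤ) * x := by nlinarith
      have := neg_abs_le h
      linarith
    · show (k : ℤ) * x + h ≤ ((k * n + h.natAbs : ℕ) : ℤ)
      push_cast
      have h6 : (k : ℤ) * x ≤ (k : ℤ) * n := by nlinarith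
      have := le_abs_self h
      linarith
  have h2 : cnt ((fun x : ℤ => (k : ℤ) * x + h) ⁻¹' S) n ≤ cnt S (k * n + h.natAbs) := by
    unfold cnt
    rw [← Set.ncard_image_of_injective _ (aff_injective k hk h)]
    exact Set.ncard_le_ncard hsub (cnt_fin S _)
  have h3 : (cnt ((fun x : ℤ => (k : ℤ) * x + h) ⁻¹' S) n : ℝ) ≤ cnt S (k * n + h.natAbs) := by
    exact_mod_cast h2
  have h4 : ((k * n + h.natAbs : ℕ) : ℝ) ≤ (k + 1) * n := by
    push_cast
    have : (h.natAbs : ℝ) ≤ n := by exact_mod_cast hn2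
    push_cast at this
    linarith
  calc (cnt ((fun x : ℤ => (k : ℤ) * x + h) ⁻¹' S) n : ℝ)
      ≤ ε / (k + 1) * ((k * n + h.natAbs : ℕ) : ℝ) := h3.trans h1
    _ ≤ ε / (k + 1) * ((k + 1) * n) := by gcongr
    _ = ε * n := by field_simp

/-- The complement of a null set meets every residue class in the positive integers. -/
theorem IsNull.exists_pos {S : Set ℤ} (hS : IsNull S) (m : ℕ) (hm : 0 < m) (r : ℤ) :
    ∃ x : ℤ, 0 < x ∧ x ∉ S ∧ x % (m : ℤ) = r % (m : ℤ) := by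
  by_contra hcon
  push Not at hcon
  have hm' : (0 : ℤ) < m := by exact_mod_cast hm
  have hmr : (0 : ℝ) < m := by exact_mod_cast hm
  obtain ⟨N, hN⟩ := hS (1 / (4 * m)) (by positivity)
  have h1 := hN ((N + 3) * m) (by nlinarith)
  have hr0 := Int.emod_nonneg r hm'.ne'
  have hr1 := Int.emod_lt_of_pos r hm'
  have hsub : (fun j : ℕ => r % (m : ℤ) + m + j * m) '' (Set.Iio (N + 1)) ⊆
      S ∩ Set.Icc (-(((N + 3) * m : ℕ) : ℤ)) (((N + 3) * m : ℕ) : ℤ) := by
    rintro _ ⟨j, hj, rfl⟩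
    have hj' : (j : ℤ) < N + 1 := by exact_mod_cast hj
    have hj0 : (0 : ℤ) ≤ (j : ℤ) * m := by positivity
    have hj1 : (j : ℤ) * m ≤ (N + 1) * m := by nlinarith
    refine ⟨?_, ?_, ?_⟩
    · by_contra hns
      apply hcon (r % (m : ℤ) + m + j * m) (by linarith) hns
      have h9 : r % (m : ℤ) + m + j * m = r % (m : ℤ) + (1 + j) * m := by ring
      rw [h9, Int.add_mul_emod_self_right, Int.emod_emod_of_dvd _ dvd_rfl]
    · show -(((N + 3) * m : ℕ) : ℤ) ≤ r % (m : ℤ) + m + j * m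
      have : (0 : ℤ) ≤ (((N + 3) * m : ℕ) : ℤ) := by positivity
      linarith
    · show r % (m : ℤ) + m + j * m ≤ (((N + 3) * m : ℕ) : ℤ)
      push_cast
      nlinarith
  have h2 : N + 1 ≤ cnt S ((N + 3) * m) := by
    unfold cnt
    calc N + 1 = (Set.Iio (N + 1)).ncard := by
          rw [← Finset.coe_Iio, Set.ncard_coe_finset]; simp
      _ = ((fun j : ℕ => r % (m : ℤ) + m + j * m) '' (Set.Iio (N + 1))).ncard := by
          rw [Set.ncard_image_of_injective]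
          intro a b hab
          simp only at hab
          have : (a : ℤ) * m = b * m := by linarith
          have := mul_right_cancel₀ hm'.ne' this
          exact_mod_cast this
      _ ≤ _ := Set.ncard_le_ncard hsub (cnt_fin S _)
  have h3 : (N + 1 : ℝ) ≤ cnt S ((N + 3) * m) := by exact_mod_cast h2
  have h4 : 1 / (4 * (m : ℝ)) * (((N + 3) * m : ℕ) : ℝ) = (N + 3) / 4 := by
    push_cast
    field_simp
  rw [h4] at h1
  have : (0 : ℝ) ≤ N := by positivity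
  linarith

/-- `inf` of `buck (X \ S)` over null sets `S`. -/
noncomputable def lowB (X : Set ℤ) : ℝ := sInf {s : ℝ | ∃ S : Set ℤ, IsNull S ∧ s = buck (X \ S)}

theorem lowB_bdd (X : Set ℤ) : BddBelow {s : ℝ | ∃ S : Set ℤ, IsNull S ∧ s = buck (X \ S)} :=
  ⟨0, by rintro _ ⟨S, _, rfl⟩; exact buck_nonneg _⟩

theorem lowB_le (X S : Set ℤ) (hS : IsNull S) : lowB X ≤ buck (X \ S) :=
  csInf_le (lowB_bdd X) ⟨S, hS, rfl⟩

theorem le_lowB (X : Set ℤ) (c : ℝ) (h : ∀ S : Set ℤ, IsNull S → c ≤ buck (X \ S)) :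
    c ≤ lowB X := by
  apply le_csInf
  · exact ⟨_, ∅, isNull_empty, rfl⟩
  · rintro _ ⟨S, hS, rfl⟩
    exact h S hS

theorem lowB_nonneg (X : Set ℤ) : 0 ≤ lowB X := le_lowB X 0 fun _ _ => buck_nonneg _

theorem lowB_le_buck (X : Set ℤ) : lowB X ≤ buck X := by
  have := lowB_le X ∅ isNull_empty
  simpa using this

theorem lowB_le_one (X : Set ℤ) : lowB X ≤ 1 := (lowB_le_buck X).trans (buck_le_one X)

theorem lowB_mono {X Y : Set ℤ} (h : X ⊆ Y) : lowB X ≤ lowB Y :=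
  le_lowB Y _ fun S hS => (lowB_le X S hS).trans (buck_mono (Set.sdiff_subset_sdiff_left h))

theorem lowB_union_le (X Y : Set ℤ) : lowB (X ∪ Y) ≤ lowB X + lowB Y := by
  have key : ∀ S T : Set ℤ, IsNull S → IsNull T →
      lowB (X ∪ Y) ≤ buck (X \ S) + buck (Y \ T) := by
    intro S T hS hT
    have h1 := lowB_le (X ∪ Y) (S ∪ T) (hS.union hT)
    have h2 : buck ((X ∪ Y) \ (S ∪ T)) ≤ buck ((X \ S) ∪ (Y \ T)) := by
      apply buck_mono
      rintro x ⟨hx | hx, hn⟩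
      · exact Or.inl ⟨hx, fun h => hn (Or.inl h)⟩
      · exact Or.inr ⟨hx, fun h => hn (Or.inr h)⟩
    linarith [buck_union_le (X \ S) (Y \ T)]
  have h1 : ∀ T : Set ℤ, IsNull T → lowB (X ∪ Y) - buck (Y \ T) ≤ lowB X := by
    intro T hT
    apply le_lowB
    intro S hS
    linarith [key S T hS hT]
  have h2 : lowB (X ∪ Y) - lowB X ≤ lowB Y := by
    apply le_lowB
    intro T hT
    linarith [h1 T hT]
  linarith

theorem lowB_aff (k : ℕ) (hk : 0 < k) (h : ℤ) (X : Set ℤ) :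
    lowB (aff k h X) = 1 / (k : ℝ) * lowB X := by
  have hk' : (0 : ℝ) < k := by exact_mod_cast hk
  apply le_antisymm
  · have : (k : ℝ) * lowB (aff k h X) ≤ lowB X := by
      apply le_lowB
      intro S hS
      have h1 := lowB_le (aff k h X) (aff k h S) (hS.aff k hk h)
      have h2 : aff k h X \ aff k h S = aff k h (X \ S) :=
        (Set.image_sdiff (aff_injective k hk h) X S).symm
      rw [h2, buck_aff k hk h] at h1
      calc (k : ℝ) * lowB (aff k h X) ≤ k * (1 / (k : ℝ) * buck (X \ S)) := by gcongr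
        _ = buck (X \ S) := by field_simp
    rw [one_div, ← div_eq_inv_mul, le_div_iff₀ hk']
    linarith
  · apply le_lowB
    intro S hS
    have h1 := lowB_le X _ (hS.preimage k hk h)
    have h2 : aff k h (X \ (fun x : ℤ => (k : ℤ) * x + h) ⁻¹' S) ⊆ aff k h X \ S := by
      rintro _ ⟨x, ⟨hx, hxS⟩, rfl⟩
      exact ⟨⟨x, hx, rfl⟩, hxS⟩
    calc 1 / (k : ℝ) * lowB X
        ≤ 1 / (k : ℝ) * buck (X \ (fun x : ℤ => (k : ℤ) * x + h) ⁻¹' S) := by gcongr
      _ = buck (aff k h (X \ (fun x : ℤ => (k : ℤ) * x + h) ⁻¹' S)) := (buck_aff k hk h _).symm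
      _ ≤ buck (aff k h X \ S) := buck_mono h2

theorem lowB_eq_one (H : Set ℤ) (hH : ∀ x : ℤ, 0 < x → x ∈ H) : lowB H = 1 := by
  apply le_antisymm (lowB_le_one H)
  apply le_lowB
  intro S hS
  rw [buck_eq_one]
  intro m hm r
  obtain ⟨x, hx0, hxS, hxr⟩ := hS.exists_pos m hm r
  exact ⟨x, ⟨hH x hx0, hxS⟩, hxr⟩

/-- The sparse set `{n! + n : n ≥ 1}`. -/
def sparse : Set ℤ := (fun n : ℕ => ((n.factorial + n : ℕ) : ℤ)) '' Set.Ici 1

theorem sparse_pos {x : ℤ} (hx : x ∈ sparse) : 0 < x := by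
  obtain ⟨n, hn, rfl⟩ := hx
  have : 0 < n.factorial := Nat.factorial_pos n
  show (0 : ℤ) < ((n.factorial + n : ℕ) : ℤ)
  positivity

theorem sparse_res (m : ℕ) (hm : 0 < m) (r : ℤ) : ∃ x ∈ sparse, x % (m : ℤ) = r % (m : ℤ) := by
  have hm' : (0 : ℤ) < m := by exact_mod_cast hm
  have hr0 := Int.emod_nonneg r hm'.ne'
  obtain ⟨a, ha⟩ := Int.eq_ofNat_of_zero_le hr0
  refine ⟨(((a + m).factorial + (a + m) : ℕ) : ℤ), ⟨a + m, ?_, rfl⟩, ?_⟩
  · show 1 ≤ a + m
    omega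
  · have h1 : m ∣ (a + m).factorial := Nat.dvd_factorial hm (by omega)
    obtain ⟨c, hc⟩ := h1
    rw [hc]
    push_cast
    rw [← ha]
    have : (m : ℤ) * c + (r % (m : ℤ) + m) = r % (m : ℤ) + (c + 1) * m := by ring
    rw [this, Int.add_mul_emod_self_right, Int.emod_emod_of_dvd _ dvd_rfl]

theorem sq_le_factorial_add (n : ℕ) (hn : 1 ≤ n) : n * n ≤ n.factorial + n := by
  obtain ⟨k, rfl⟩ := Nat.exists_eq_succ_of_ne_zero (by omega : n ≠ 0)
  rw [Nat.succ_eq_add_one, Nat.factorial_succ]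
  have := Nat.self_le_factorial k
  nlinarith

theorem sparse_null : IsNull sparse := by
  have hc : ∀ n : ℕ, cnt sparse n ≤ Nat.sqrt n + 1 := by
    intro n
    have hsub : sparse ∩ Set.Icc (-(n : ℤ)) n ⊆
        (fun n : ℕ => ((n.factorial + n : ℕ) : ℤ)) '' (Set.Iio (Nat.sqrt n + 1)) := by
      rintro _ ⟨⟨j, hj, rfl⟩, -, hhi⟩
      refine ⟨j, ?_, rfl⟩
      have h1 : j.factorial + j ≤ n := by
        have : ((j.factorial + j : ℕ) : ℤ) ≤ n := hhi
        exact_mod_cast this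
      have h2 := sq_le_factorial_add j hj
      show j < Nat.sqrt n + 1
      rw [Nat.lt_succ_iff, Nat.le_sqrt]
      omega
    have hfin : (Set.Iio (Nat.sqrt n + 1)).Finite := Set.finite_Iio _
    calc cnt sparse n ≤ _ := Set.ncard_le_ncard hsub (hfin.image _)
      _ ≤ (Set.Iio (Nat.sqrt n + 1)).ncard := Set.ncard_image_le hfin
      _ = Nat.sqrt n + 1 := by
          rw [← Finset.coe_Iio, Set.ncard_coe_finset]; simp
  intro ε hε
  obtain ⟨N, hN⟩ := exists_nat_ge (2 / ε)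
  refine ⟨(N + 1) ^ 2, fun n hn => ?_⟩
  have h1 : N + 1 ≤ Nat.sqrt n := by
    rw [Nat.le_sqrt']; exact hn
  have h2 : (cnt sparse n : ℝ) ≤ Nat.sqrt n + 1 := by exact_mod_cast hc n
  have h3 : (Nat.sqrt n * Nat.sqrt n : ℝ) ≤ n := by exact_mod_cast Nat.sqrt_le n
  have h4 : (N + 1 : ℝ) ≤ Nat.sqrt n := by exact_mod_cast h1
  have h5 : 2 ≤ ε * Nat.sqrt n := by
    have : 2 / ε ≤ Nat.sqrt n := by linarith
    rw [div_le_iff₀ hε] at this
    linarith
  have h6 : (1 : ℝ) ≤ Nat.sqrt n := by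
    have : (0 : ℝ) ≤ N := by positivity
    linarith
  calc (cnt sparse n : ℝ) ≤ Nat.sqrt n + 1 := h2
    _ ≤ 2 * Nat.sqrt n := by linarith
    _ ≤ (ε * Nat.sqrt n) * Nat.sqrt n := by gcongr
    _ = ε * (Nat.sqrt n * Nat.sqrt n) := by ring
    _ ≤ ε * n := by gcongr

end Pool.Agent.Q52.Dens
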