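import Mathlib

/-!
# Elementary facts on finite fields with two-element subfield
-/

namespace Pool.Agent.Q52.FF

variable {K : Type} [Field K]

/-- A subfield with two elements is `{0, 1}`. -/
theorem mem_of_card_two {F : Subfield K} (hF : Nat.card F = 2) {v : K} (hv : v ∈ F) :
    v = 0 ∨ v = 1 := by
  by_contra hcon
  push Not at hcon
  have hfin : Finite F := Nat.finite_of_card_ne_zero (by rw [hF]; norm_num)
  let f : Fin 3 → F := ![0, 1, ⟨v, hv⟩]
  have hf : Function.Injective f := by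
    have h01 : (0 : F) ≠ 1 := zero_ne_one
    have h0v : (0 : F) ≠ ⟨v, hv⟩ := fun h => hcon.1 (congrArg Subtype.val h).symm
    have h1v : (1 : F) ≠ ⟨v, hv⟩ := fun h => hcon.2 (congrArg Subtype.val h).symm
    intro i j hij
    fin_cases i <;> fin_cases j <;> simp_all [f]
  have h1 := Nat.card_le_card_of_injective f hf
  rw [hF, Nat.card_eq_fintype_card, Fintype.card_fin] at h1
  omega

theorem charTwo {F : Subfield K} (hF : Nat.card F = 2) : (1 : K) + 1 = 0 := by
  have h : (1 : K) + 1 ∈ F := F.add_mem F.one_mem F.one_mem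
  rcases mem_of_card_two hF h with h | h
  · exact h
  · exfalso
    have : (1 : K) = 0 := by linear_combination h
    exact one_ne_zero this

section gen

variable {M : ℕ} {θ : K}

/-- powers of a generator depend only on the exponent modulo `M`. -/
theorem pow_mod (hpow : θ ^ M = 1) {a b : ℕ} (h : a ≡ b [MOD M]) : θ ^ a = θ ^ b := by
  rw [pow_eq_pow_mod a hpow, pow_eq_pow_mod b hpow]
  rw [show a % M = b % M from h]

theorem E_add [NeZero M] (hpow : θ ^ M = 1) (a b : ZMod M) :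
    θ ^ (a + b).val = θ ^ a.val * θ ^ b.val := by
  rw [ZMod.val_add, ← pow_add, ← pow_eq_pow_mod _ hpow]

theorem E_mul [NeZero M] (hpow : θ ^ M = 1) (n : ℕ) (a : ZMod M) :
    θ ^ ((n : ZMod M) * a).val = (θ ^ a.val) ^ n := by
  induction n with
  | zero => simp
  | succ n ih =>
    have : ((n + 1 : ℕ) : ZMod M) * a = (n : ZMod M) * a + a := by push_cast; ring
    rw [this, E_add hpow, ih, pow_succ]

theorem E_cast [NeZero M] (hpow : θ ^ M = 1) (n : ℕ) : θ ^ ((n : ZMod M)).val = θ ^ n := by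
  rw [ZMod.val_natCast, ← pow_eq_pow_mod _ hpow]

/-- the order of a generator. -/
theorem orderOf_gen (hθ : ∀ x : K, x ≠ 0 → ∃ n : ℕ, θ ^ n = x) (hθ0 : θ ≠ 0)
    (hcard : Nat.card K = M + 1) (hM : 0 < M) : θ ^ M = 1 ∧ orderOf θ = M := by
  have : Finite K := Nat.finite_of_card_ne_zero (by rw [hcard]; positivity)
  have := Fintype.ofFinite K
  have hc : Fintype.card K = M + 1 := by rw [← Nat.card_eq_fintype_card, hcard]
  have hpow : θ ^ M = 1 := by
    have := FiniteField.pow_card_sub_one_eq_one θ hθ0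
    rwa [hc, Nat.add_sub_cancel] at this
  refine ⟨hpow, ?_⟩
  have hdvd : orderOf θ ∣ M := orderOf_dvd_of_pow_eq_one hpow
  apply le_antisymm (Nat.le_of_dvd hM hdvd)
  have hn : 0 < orderOf θ := Nat.pos_of_dvd_of_pos hdvd hM
  have hsub : {x : K | x ≠ 0} ⊆ (fun i : ℕ => θ ^ i) '' (Set.Iio (orderOf θ)) := by
    intro x hx
    obtain ⟨k, hk⟩ := hθ x hx
    refine ⟨k % orderOf θ, Nat.mod_lt _ hn, ?_⟩
    show θ ^ (k % orderOf θ) = x
    rw [← hk, pow_mod_orderOf]
  have h2 : ({x : K | x ≠ 0}).ncard ≤ orderOf θ := by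
    calc _ ≤ ((fun i : ℕ => θ ^ i) '' (Set.Iio (orderOf θ))).ncard :=
          Set.ncard_le_ncard hsub ((Set.finite_Iio _).image _)
      _ ≤ (Set.Iio (orderOf θ)).ncard := Set.ncard_image_le (Set.finite_Iio _)
      _ = orderOf θ := by rw [← Finset.coe_Iio, Set.ncard_coe_finset]; simp
  have h3 : ({x : K | x ≠ 0}).ncard = M := by
    have : {x : K | x ≠ 0} = ({0} : Set K)ᶜ := by ext x; simp
    rw [this, Set.ncard_compl, Set.ncard_singleton, hcard]
    omega
  omega

theorem E_inj [NeZero M] (hord : orderOf θ = M) {a b : ZMod M} (h : θ ^ a.val = θ ^ b.val) :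
    a = b := by
  have ha : a.val < orderOf θ := by rw [hord]; exact ZMod.val_lt a
  have hb : b.val < orderOf θ := by rw [hord]; exact ZMod.val_lt b
  exact ZMod.val_injective M (pow_injOn_Iio_orderOf ha hb h)

theorem E_surj [NeZero M] (hθ : ∀ x : K, x ≠ 0 → ∃ n : ℕ, θ ^ n = x) (hpow : θ ^ M = 1)
    {x : K} (hx : x ≠ 0) : ∃ a : ZMod M, θ ^ a.val = x := by
  obtain ⟨n, rfl⟩ := hθ x hx
  exact ⟨n, E_cast hpow n⟩

end gen

/-- existence of a generator of the multiplicative group of a finite field. -/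
theorem exists_gen [Finite K] : ∃ θ : K, θ ≠ 0 ∧ ∀ x : K, x ≠ 0 → ∃ n : ℕ, θ ^ n = x := by
  obtain ⟨g, hg⟩ := IsCyclic.exists_monoid_generator (α := Kˣ)
  refine ⟨g, g.ne_zero, fun x hx => ?_⟩
  obtain ⟨n, hn⟩ := hg (Units.mk0 x hx)
  refine ⟨n, ?_⟩
  have := congrArg Units.val hn
  simpa using this

end Pool.Agent.Q52.FF
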