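import Mathlib
import Pool.Agent.Q52.Dens

/-!
# A generic set of integers

By the Baire category theorem there is a set of integers which, together with its complement,
is independent of all its nontrivial affine images.
-/

namespace Pool.Agent.Q52.Dens

/-- the two halves of `H` determined by `f`. -/
def half (H : Set ℤ) (f : ℤ → Bool) (s : Bool) : Set ℤ := {x | x ∈ H ∧ f x = s}

/-- the piece with label `p`. -/
def piece (H : Set ℤ) (f : ℤ → Bool) (p : Bool × ℕ × ℤ) : Set ℤ :=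
  aff p.2.1 p.2.2 (half H f p.1)

/-- the admissible finite sets of labels. -/
def Adm (T : Finset (Bool × ℕ × ℤ)) : Prop :=
  (∀ p ∈ T, 0 < p.2.1) ∧ (∀ p ∈ T, (!p.1, p.2) ∉ T) ∧ (∀ p ∈ T, p.2 ≠ (1, 0))

/-- the requirement set. -/
def U (q : ℕ × ℤ × ℤ × Bool × Finset (Bool × ℕ × ℤ)) : Set (ℤ → Bool) :=
  {f | 0 < q.1 → Adm q.2.2.2.2 → ∃ x : ℤ, q.2.2.1 < x ∧ x % (q.1 : ℤ) = q.2.1 % (q.1 : ℤ) ∧
    f x = q.2.2.2.1 ∧ ∀ p ∈ q.2.2.2.2, ∀ y : ℤ, (p.2.1 : ℤ) * y + p.2.2 = x → f y = !p.1}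

theorem isOpen_coord (y : ℤ) (v : Bool) : IsOpen {f : ℤ → Bool | f y = v} := by
  have : {f : ℤ → Bool | f y = v} = (fun f : ℤ → Bool => f y) ⁻¹' {v} := rfl
  rw [this]
  exact (isOpen_discrete _).preimage (continuous_apply y)

theorem U_open (q : ℕ × ℤ × ℤ × Bool × Finset (Bool × ℕ × ℤ)) : IsOpen (U q) := by
  obtain ⟨m, r, N, s, T⟩ := q
  by_cases hm : 0 < m
  swap
  · have : U (m, r, N, s, T) = Set.univ := by
      ext f; simp [U, hm]
    rw [this]; exact isOpen_univ
  by_cases hT : Adm T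
  swap
  · have : U (m, r, N, s, T) = Set.univ := by
      ext f; simp [U, hT]
    rw [this]; exact isOpen_univ
  have hU : U (m, r, N, s, T) = ⋃ x ∈ {x : ℤ | N < x ∧ x % (m : ℤ) = r % (m : ℤ)},
      ({f : ℤ → Bool | f x = s} ∩ ⋂ p ∈ (T : Set (Bool × ℕ × ℤ)),
        ⋂ y ∈ {y : ℤ | (p.2.1 : ℤ) * y + p.2.2 = x}, {f : ℤ → Bool | f y = !p.1}) := by
    ext f
    simp only [U, hm, hT, forall_const, Set.mem_ofPred_eq, Set.mem_iUnion, Set.mem_inter_iff,
      Set.mem_iInter, exists_prop, Finset.mem_coe, and_assoc]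
  rw [hU]
  apply isOpen_biUnion
  intro x _
  apply (isOpen_coord x s).inter
  apply Set.Finite.isOpen_biInter T.finite_toSet
  intro p hp
  have hk := hT.1 p hp
  have hfin : {y : ℤ | (p.2.1 : ℤ) * y + p.2.2 = x}.Finite := by
    apply Set.Subsingleton.finite
    intro y hy z hz
    apply aff_injective p.2.1 hk p.2.2
    show (p.2.1 : ℤ) * y + p.2.2 = (p.2.1 : ℤ) * z + p.2.2
    rw [show (p.2.1 : ℤ) * y + p.2.2 = x from hy, show (p.2.1 : ℤ) * z + p.2.2 = x from hz]
  apply Set.Finite.isOpen_biInter hfin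
  intro y _
  exact isOpen_coord y _

theorem large_unique (B k k' h h' x y : ℤ) (hB : 0 ≤ B) (hk : 1 ≤ k)
    (hkB : k ≤ B) (hh : |h| ≤ B) (hh' : |h'| ≤ B)
    (hx : 2 * B ^ 2 + B < x) (h1 : k * y + h = x) (h2 : k' * y + h' = x) :
    k = k' ∧ h = h' := by
  have h3 : (k - k') * y = h' - h := by linear_combination h1 - h2
  by_cases hkk : k = k'
  · refine ⟨hkk, ?_⟩
    rw [hkk] at h3
    simp at h3
    linarith
  · exfalso
    have h4 : 1 ≤ |k - k'| := Int.one_le_abs (sub_ne_zero.2 hkk)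
    have h5 : |y| ≤ |k - k'| * |y| := by nlinarith [abs_nonneg y]
    rw [← abs_mul, h3] at h5
    have h6 : |h' - h| ≤ |h'| + |h| := abs_sub _ _
    have h7 : |y| ≤ 2 * B := by linarith
    have h8 : y ≤ 2 * B := (le_abs_self y).trans h7
    have h9 : h ≤ B := (le_abs_self h).trans hh
    nlinarith

theorem U_dense (q : ℕ × ℤ × ℤ × Bool × Finset (Bool × ℕ × ℤ)) : Dense (U q) := by
  obtain ⟨m, r, N, s, T⟩ := q
  by_cases hm : 0 < m
  swap
  · have : U (m, r, N, s, T) = Set.univ := by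
      ext f; simp [U, hm]
    rw [this]; exact dense_univ
  by_cases hT : Adm T
  swap
  · have : U (m, r, N, s, T) = Set.univ := by
      ext f; simp [U, hT]
    rw [this]; exact dense_univ
  rw [dense_iff_inter_open]
  intro V hV ⟨f0, hf0⟩
  rw [isOpen_pi_iff] at hV
  obtain ⟨F, u, hu, hFu⟩ := hV f0 hf0
  -- bounds
  obtain ⟨B, hB0, hBF, hBk, hBh⟩ : ∃ B : ℤ, 0 ≤ B ∧ (∀ y ∈ F, |y| ≤ B) ∧
      (∀ p ∈ T, (p.2.1 : ℤ) ≤ B) ∧ (∀ p ∈ T, |p.2.2| ≤ B) := by
    refine ⟨((F.sup Int.natAbs + T.sup (fun p => p.2.1 + p.2.2.natAbs) : ℕ) : ℤ),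
      by positivity, ?_, ?_, ?_⟩
    · intro y hy
      have h1 : y.natAbs ≤ F.sup Int.natAbs := Finset.le_sup (f := Int.natAbs) hy
      rw [Int.abs_eq_natAbs]
      have h2 : y.natAbs ≤ F.sup Int.natAbs + T.sup (fun p => p.2.1 + p.2.2.natAbs) := by omega
      exact_mod_cast h2
    · intro p hp
      have h1 : p.2.1 + p.2.2.natAbs ≤ T.sup (fun p => p.2.1 + p.2.2.natAbs) :=
        Finset.le_sup (f := fun p : Bool × ℕ × ℤ => p.2.1 + p.2.2.natAbs) hp
      have h2 : p.2.1 ≤ F.sup Int.natAbs + T.sup (fun p => p.2.1 + p.2.2.natAbs) := by omega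
      exact_mod_cast h2
    · intro p hp
      have h1 : p.2.1 + p.2.2.natAbs ≤ T.sup (fun p => p.2.1 + p.2.2.natAbs) :=
        Finset.le_sup (f := fun p : Bool × ℕ × ℤ => p.2.1 + p.2.2.natAbs) hp
      rw [Int.abs_eq_natAbs]
      have h2 : p.2.2.natAbs ≤ F.sup Int.natAbs + T.sup (fun p => p.2.1 + p.2.2.natAbs) := by
        omega
      exact_mod_cast h2
  have hm' : (1 : ℤ) ≤ m := by exact_mod_cast hm
  have hr0 := Int.emod_nonneg r (by omega : (m : ℤ) ≠ 0)
  obtain ⟨x, hxN, hxB, hxr⟩ : ∃ x : ℤ, N < x ∧ 2 * B ^ 2 + B < x ∧ x % (m : ℤ) = r % (m : ℤ) := by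
    refine ⟨r % (m : ℤ) + (2 * B ^ 2 + B + 1 + |N|) * m, ?_, ?_, ?_⟩
    · have := le_abs_self N
      have h0 := abs_nonneg N
      have : 2 * B ^ 2 + B + 1 + |N| ≤ (2 * B ^ 2 + B + 1 + |N|) * m := by
        apply le_mul_of_one_le_right _ hm'
        positivity
      have : 0 ≤ B ^ 2 := by positivity
      linarith
    · have h0 := abs_nonneg N
      have : 2 * B ^ 2 + B + 1 + |N| ≤ (2 * B ^ 2 + B + 1 + |N|) * m := by
        apply le_mul_of_one_le_right _ hm'
        positivity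
      linarith
    · rw [Int.add_mul_emod_self_right, Int.emod_emod_of_dvd _ dvd_rfl]
  classical
  let f : ℤ → Bool := fun y => if y ∈ F then f0 y else if y = x then s else
    if ∃ p ∈ T, p.1 = true ∧ (p.2.1 : ℤ) * y + p.2.2 = x then false else true
  refine ⟨f, ?_, ?_⟩
  · apply hFu
    intro y hy
    have : f y = f0 y := by
      show (if y ∈ F then f0 y else _) = f0 y
      rw [if_pos (by exact_mod_cast hy)]
    rw [this]
    exact (hu y hy).2
  · intro _ _
    refine ⟨x, hxN, hxr, ?_, ?_⟩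
    · have hxF : x ∉ F := by
        intro hxF
        have := hBF x hxF
        have h2 := le_abs_self x
        nlinarith
      show (if x ∈ F then f0 x else if x = x then s else _) = s
      rw [if_neg hxF, if_pos rfl]
    · intro p hp y hy
      have hp' : p ∈ T := hp
      have hk : (1 : ℤ) ≤ p.2.1 := by exact_mod_cast hT.1 p hp'
      have hkB := hBk p hp'
      have hhB := hBh p hp'
      have hyF : y ∉ F := by
        intro hyF
        have h1 := hBF y hyF
        have h2 := le_abs_self y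
        have h3 := le_abs_self p.2.2
        have h4 : (p.2.1 : ℤ) * y ≤ B * B := by nlinarith [abs_nonneg y]
        nlinarith
      have hyx : y ≠ x := by
        intro hyx
        rw [hyx] at hy
        have h1 : ((p.2.1 : ℤ) - 1) * x = - p.2.2 := by linear_combination hy
        by_cases hk1 : (p.2.1 : ℤ) = 1
        · have h2 : p.2.2 = 0 := by rw [hk1] at h1; simp at h1; exact h1
          apply hT.2.2 p hp'
          apply Prod.ext
          · exact_mod_cast hk1
          · exact h2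
        · have h2 : (2 : ℤ) ≤ p.2.1 := by omega
          have h3 := neg_abs_le p.2.2
          have h4 : x ≤ ((p.2.1 : ℤ) - 1) * x := by nlinarith
          nlinarith
      show (if y ∈ F then f0 y else if y = x then s else
        if ∃ p ∈ T, p.1 = true ∧ (p.2.1 : ℤ) * y + p.2.2 = x then false else true) = !p.1
      rw [if_neg hyF, if_neg hyx]
      rcases hp1 : p.1 with _ | _
      · rw [if_neg]
        · rfl
        · rintro ⟨p', hp'T, hp'1, hp'y⟩
          have h5 := large_unique B p.2.1 p'.2.1 p.2.2 p'.2.2 x y hB0 hk hkB hhB (hBh p' hp'T)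
            hxB hy hp'y
          apply hT.2.1 p hp'
          have : p' = (!p.1, p.2) := by
            apply Prod.ext
            · rw [hp'1, hp1]; rfl
            · apply Prod.ext
              · exact_mod_cast h5.1.symm
              · exact h5.2.symm
          rw [← this]; exact hp'T
      · rw [if_pos]
        · rfl
        · exact ⟨p, hp', hp1, hy⟩

/-- existence of a generic set. -/
theorem exists_generic : ∃ f : ℤ → Bool, ∀ q, f ∈ U q := by
  have h : Dense (⋂ q : ℕ × ℤ × ℤ × Bool × Finset (Bool × ℕ × ℤ), U q) :=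
    dense_iInter_of_isOpen U_open U_dense
  obtain ⟨f, hf⟩ := h.nonempty
  exact ⟨f, fun q => Set.mem_iInter.1 hf q⟩

end Pool.Agent.Q52.Dens
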