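import Mathlib

/-!
# Hitting sets, Sidon sets and a construction of sumsets with complements without long progressions
-/

namespace Pool.Agent.Q52.Hit

open Pointwise

/-- Greedy hitting sets. -/
theorem hitting {α ι : Type} [DecidableEq α] [DecidableEq ι] (G : Finset α) (I : Finset ι)
    (S : ι → Finset α) (c : ℝ) (hc1 : c ≤ 1)
    (hS : ∀ i ∈ I, S i ⊆ G ∧ c * G.card ≤ ((S i).card : ℝ)) (hG : 0 < G.card) (t : ℕ) :
    ∃ Z : Finset α, Z ⊆ G ∧ Z.card ≤ t ∧
      ((I.filter (fun i => Disjoint (S i) Z)).card : ℝ) ≤ I.card * (1 - c) ^ t := by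
  induction t with
  | zero =>
    refine ⟨∅, Finset.empty_subset _, by simp, ?_⟩
    rw [pow_zero, mul_one]
    exact_mod_cast Finset.card_filter_le _ _
  | succ t ih =>
    obtain ⟨Z, hZG, hZt, hZ⟩ := ih
    set U := I.filter (fun i => Disjoint (S i) Z) with hU
    have hGr : (0 : ℝ) < G.card := by exact_mod_cast hG
    -- averaging
    have hsum : ∑ x ∈ G, ((U.filter (fun i => x ∈ S i)).card : ℝ) = ∑ i ∈ U, ((S i).card : ℝ) := by
      have h1 : ∑ x ∈ G, (U.filter (fun i => x ∈ S i)).card = ∑ i ∈ U, (G.filter (fun x => x ∈ S i)).card := by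
        have := Finset.sum_card_bipartiteAbove_eq_sum_card_bipartiteBelow (s := G) (t := U)
          (fun x i => x ∈ S i)
        exact this
      have h2 : ∑ i ∈ U, (G.filter (fun x => x ∈ S i)).card = ∑ i ∈ U, (S i).card := by
        apply Finset.sum_congr rfl
        intro i hi
        congr 1
        ext x
        rw [Finset.mem_filter]
        exact ⟨fun h => h.2, fun h => ⟨(hS i (Finset.mem_filter.1 hi).1).1 h, h⟩⟩
      exact_mod_cast h1.trans h2
    have hlow : ∑ x ∈ G, (c * U.card) ≤ ∑ x ∈ G, ((U.filter (fun i => x ∈ S i)).card : ℝ) := by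
      rw [hsum, Finset.sum_const, nsmul_eq_mul]
      have h3 : ∑ i ∈ U, (c * G.card) ≤ ∑ i ∈ U, ((S i).card : ℝ) := by
        apply Finset.sum_le_sum
        intro i hi
        exact (hS i (Finset.mem_filter.1 hi).1).2
      rw [Finset.sum_const, nsmul_eq_mul] at h3
      refine le_trans (le_of_eq ?_) h3
      ring
    obtain ⟨x, hxG, hx⟩ := Finset.exists_le_of_sum_le (Finset.card_pos.1 hG) hlow
    refine ⟨insert x Z, ?_, ?_, ?_⟩
    · exact Finset.insert_subset hxG hZG
    · exact (Finset.card_insert_le _ _).trans (by omega)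
    · have h4 : I.filter (fun i => Disjoint (S i) (insert x Z)) =
          U \ U.filter (fun i => x ∈ S i) := by
        ext i
        simp only [hU, Finset.mem_filter, Finset.mem_sdiff, Finset.disjoint_insert_right]
        tauto
      rw [h4, Finset.card_sdiff_of_subset (Finset.filter_subset _ _),
        Nat.cast_sub (Finset.card_le_card (Finset.filter_subset _ _)), pow_succ]
      have h5 : (U.card : ℝ) - (U.filter (fun i => x ∈ S i)).card ≤ U.card * (1 - c) := by
        linarith
      refine h5.trans ?_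
      have h6 : (U.card : ℝ) * (1 - c) ≤ (I.card * (1 - c) ^ t) * (1 - c) :=
        mul_le_mul_of_nonneg_right hZ (by linarith)
      linarith

/-- `P - Y` as a finite set. -/
def diffs (P Y : Finset ℤ) : Finset ℤ := P.biUnion (fun v => Y.image (fun y => v - y))

/-- lower bound for the size of `P - Y` for a Sidon set `Y`. -/
theorem diffs_card (Y : Finset ℤ)
    (hY : ∀ a ∈ Y, ∀ b ∈ Y, ∀ c ∈ Y, ∀ d ∈ Y, a - b = c - d → a ≠ b → a = c) (P : Finset ℤ) :
    2 * P.card * Y.card ≤ 2 * (diffs P Y).card + P.card * P.card := by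
  induction P using Finset.induction_on with
  | empty => simp
  | insert v P hv ih =>
    have h1 : diffs (insert v P) Y = (Y.image (fun y => v - y)) ∪ diffs P Y := by
      unfold diffs
      rw [Finset.biUnion_insert]
    have h2 : (Y.image (fun y => v - y)).card = Y.card :=
      Finset.card_image_of_injective _ (fun a b h => by simpa using h)
    have h3 : ((Y.image (fun y => v - y)) ∩ diffs P Y).card ≤ P.card := by
      have h4 : (Y.image (fun y => v - y)) ∩ diffs P Y =
          P.biUnion (fun w => (Y.image (fun y => v - y)) ∩ (Y.image (fun y => w - y))) := by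
        unfold diffs
        rw [Finset.inter_biUnion]
      rw [h4]
      refine Finset.card_biUnion_le.trans ?_
      calc ∑ w ∈ P, ((Y.image (fun y => v - y)) ∩ (Y.image (fun y => w - y))).card
          ≤ ∑ w ∈ P, 1 := by
            apply Finset.sum_le_sum
            intro w hw
            rw [Finset.card_le_one]
            intro a ha b hb
            rw [Finset.mem_inter, Finset.mem_image, Finset.mem_image] at ha hb
            obtain ⟨⟨y1, hy1, h1⟩, ⟨y2, hy2, h2⟩⟩ := ha
            obtain ⟨⟨y3, hy3, h3⟩, ⟨y4, hy4, h4⟩⟩ := hb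
            have hne : y1 ≠ y2 := by
              intro h
              apply hv
              have : v = w := by omega
              rw [this]; exact hw
            have := hY y1 hy1 y2 hy2 y3 hy3 y4 hy4 (by omega) hne
            omega
        _ = P.card := by simp
    have h5 := Finset.card_union_add_card_inter (Y.image (fun y => v - y)) (diffs P Y)
    rw [← h1, h2] at h5
    rw [Finset.card_insert_of_notMem hv]
    nlinarith

/-- the Erdős–Turán set. -/
def ET (p : ℕ) (o : ℤ) : Finset ℤ :=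
  (Finset.range p).image (fun k : ℕ => o + ((2 * p * k + k ^ 2 % p : ℕ) : ℤ))

theorem ET_aux {p : ℕ} (hp : p.Prime) (hp2 : p ≠ 2) {a b c d : ℕ} (ha : a < p) (hb : b < p)
    (hc : c < p) (hd : d < p)
    (h : 2 * p * a + a ^ 2 % p + (2 * p * d + d ^ 2 % p) =
      2 * p * c + c ^ 2 % p + (2 * p * b + b ^ 2 % p)) (hab : a ≠ b) : a = c := by
  have hp0 : 0 < p := hp.pos
  have ra := Nat.mod_lt (a ^ 2) hp0
  have rb := Nat.mod_lt (b ^ 2) hp0
  have rc := Nat.mod_lt (c ^ 2) hp0
  have rd := Nat.mod_lt (d ^ 2) hp0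
  have h1 : 2 * p * (a + d) + (a ^ 2 % p + d ^ 2 % p) =
      2 * p * (c + b) + (c ^ 2 % p + b ^ 2 % p) := by linarith [h]
  have h2 : a + d = c + b := by
    have e1 : (2 * p * (a + d) + (a ^ 2 % p + d ^ 2 % p)) / (2 * p) = a + d := by
      rw [Nat.mul_add_div (by omega), Nat.div_eq_of_lt (by omega), add_zero]
    have e2 : (2 * p * (c + b) + (c ^ 2 % p + b ^ 2 % p)) / (2 * p) = c + b := by
      rw [Nat.mul_add_div (by omega), Nat.div_eq_of_lt (by omega), add_zero]
    rw [← e1, h1, e2]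
  have h3 : a ^ 2 % p + d ^ 2 % p = c ^ 2 % p + b ^ 2 % p := by
    rw [h2] at h1
    omega
  have hf : Fact p.Prime := ⟨hp⟩
  have h4 : (a : ZMod p) ^ 2 + (d : ZMod p) ^ 2 = (c : ZMod p) ^ 2 + (b : ZMod p) ^ 2 := by
    have h5 : ((a ^ 2 % p + d ^ 2 % p : ℕ) : ZMod p) = ((c ^ 2 % p + b ^ 2 % p : ℕ) : ZMod p) := by
      rw [h3]
    push_cast at h5
    simpa using h5
  have h5 : (a : ZMod p) + d = c + b := by
    have : ((a + d : ℕ) : ZMod p) = ((c + b : ℕ) : ZMod p) := by rw [h2]
    push_cast at this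
    exact this
  -- `(a - b) (a - c) = 0`
  have h6 : (2 : ZMod p) * (((a : ZMod p) - b) * ((a : ZMod p) - c)) = 0 := by
    have hd' : (d : ZMod p) = c + b - a := by linear_combination h5
    rw [hd'] at h4
    linear_combination h4
  have h20 : (2 : ZMod p) ≠ 0 := by
    have : ((2 : ℕ) : ZMod p) ≠ 0 := by
      rw [Ne, ZMod.natCast_eq_zero_iff]
      intro h
      exact hp2 ((Nat.prime_dvd_prime_iff_eq hp Nat.prime_two).1 h)
    exact_mod_cast this
  have hcast : ∀ x y : ℕ, x < p → y < p → (x : ZMod p) = y → x = y := by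
    intro x y hx hy hxy
    have := (ZMod.natCast_eq_natCast_iff x y p).1 hxy
    exact Nat.ModEq.eq_of_lt_of_lt this hx hy
  rcases mul_eq_zero.1 h6 with h7 | h7
  · exact absurd h7 h20
  · rcases mul_eq_zero.1 h7 with h8 | h8
    · exact absurd (hcast a b ha hb (sub_eq_zero.1 h8)) hab
    · exact hcast a c ha hc (sub_eq_zero.1 h8)

theorem ET_sidon {p : ℕ} (hp : p.Prime) (hp2 : p ≠ 2) (o : ℤ) :
    ∀ a ∈ ET p o, ∀ b ∈ ET p o, ∀ c ∈ ET p o, ∀ d ∈ ET p o, a - b = c - d → a ≠ b → a = c := by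
  intro a ha b hb c hc d hd h hab
  unfold ET at ha hb hc hd
  rw [Finset.mem_image] at ha hb hc hd
  obtain ⟨a', ha', rfl⟩ := ha
  obtain ⟨b', hb', rfl⟩ := hb
  obtain ⟨c', hc', rfl⟩ := hc
  obtain ⟨d', hd', rfl⟩ := hd
  rw [Finset.mem_range] at ha' hb' hc' hd'
  have hab' : a' ≠ b' := fun h => hab (by rw [h])
  have key := ET_aux hp hp2 ha' hb' hc' hd' (by
    have h' := h
    push_cast at h'
    zify
    linarith) hab'
  rw [key]

theorem ET_inj {p : ℕ} (hp : 0 < p) (o : ℤ) :
    Set.InjOn (fun k : ℕ => o + ((2 * p * k + k ^ 2 % p : ℕ) : ℤ)) (Finset.range p : Set ℕ) := by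
  intro a _ b _ hab
  simp only at hab
  have h1 : 2 * p * a + a ^ 2 % p = 2 * p * b + b ^ 2 % p := by
    have : ((2 * p * a + a ^ 2 % p : ℕ) : ℤ) = ((2 * p * b + b ^ 2 % p : ℕ) : ℤ) := by linarith
    exact_mod_cast this
  have ra := Nat.mod_lt (a ^ 2) hp
  have rb := Nat.mod_lt (b ^ 2) hp
  have e1 : (2 * p * a + a ^ 2 % p) / (2 * p) = a := by
    rw [Nat.mul_add_div (by omega), Nat.div_eq_of_lt (by omega), add_zero]
  have e2 : (2 * p * b + b ^ 2 % p) / (2 * p) = b := by
    rw [Nat.mul_add_div (by omega), Nat.div_eq_of_lt (by omega), add_zero]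
  rw [← e1, h1, e2]

theorem ET_card {p : ℕ} (hp : 0 < p) (o : ℤ) : (ET p o).card = p := by
  unfold ET
  rw [Finset.card_image_of_injOn (ET_inj hp o), Finset.card_range]

theorem ET_bound {p : ℕ} (hp : 0 < p) (o : ℤ) {y : ℤ} (hy : y ∈ ET p o) :
    o ≤ y ∧ y ≤ o + 2 * p ^ 2 := by
  unfold ET at hy
  rw [Finset.mem_image] at hy
  obtain ⟨k, hk, rfl⟩ := hy
  rw [Finset.mem_range] at hk
  have r := Nat.mod_lt (k ^ 2) hp
  have h1 : 2 * p * k + k ^ 2 % p ≤ 2 * p ^ 2 := by nlinarith
  have h2 : ((2 * p * k + k ^ 2 % p : ℕ) : ℤ) ≤ 2 * p ^ 2 := by exact_mod_cast h1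
  have h3 : (0 : ℤ) ≤ ((2 * p * k + k ^ 2 % p : ℕ) : ℤ) := by positivity
  constructor <;> linarith

end Pool.Agent.Q52.Hit
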