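import Mathlib
import Pool.Agent.Q52.Behrend

/-!
# Transferring primitive sets from `[1, n₀]` to `[1, n]`
-/

namespace Pool.Agent.Q52.PrimLimit

open Pool.Agent.Q52.Behrend

/-- weighted size. -/
noncomputable def Sw (σ : ℝ) (A : Finset ℕ) : ℝ := ∑ a ∈ A, (a : ℝ) ^ (-σ)

theorem Sw_nonneg (σ : ℝ) (A : Finset ℕ) : 0 ≤ Sw σ A := by
  unfold Sw; positivity

theorem Sw_mono (σ : ℝ) {A B : Finset ℕ} (h : A ⊆ B) : Sw σ A ≤ Sw σ B := by
  unfold Sw
  apply Finset.sum_le_sum_of_subset_of_nonneg h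
  intro a _ _
  positivity

theorem step_upper (β : ℝ) (hβ0 : 0 < β) (hβ1 : β ≤ 1) (m : ℕ) :
    β * ((m + 1 : ℕ) : ℝ) ^ (β - 1) ≤ ((m + 1 : ℕ) : ℝ) ^ β - (m : ℝ) ^ β := by
  have hm : (0 : ℝ) < ((m + 1 : ℕ) : ℝ) := by positivity
  have h1 : (m : ℝ) = ((m + 1 : ℕ) : ℝ) * (1 + (-1 / ((m + 1 : ℕ) : ℝ))) := by
    field_simp
    push_cast
    ring
  have h2 : (-1 : ℝ) ≤ -1 / ((m + 1 : ℕ) : ℝ) := by
    rw [le_div_iff₀ hm]
    have : (1 : ℝ) ≤ ((m + 1 : ℕ) : ℝ) := by push_cast; linarith [(Nat.cast_nonneg m : (0:ℝ) ≤ m)]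
    linarith
  have h3 := rpow_one_add_le_one_add_mul_self h2 hβ0.le hβ1
  have h4 : (m : ℝ) ^ β = ((m + 1 : ℕ) : ℝ) ^ β * (1 + (-1 / ((m + 1 : ℕ) : ℝ))) ^ β := by
    rw [← Real.mul_rpow hm.le (by linarith), ← h1]
  have h5 : ((m + 1 : ℕ) : ℝ) ^ (β - 1) = ((m + 1 : ℕ) : ℝ) ^ β / ((m + 1 : ℕ) : ℝ) := by
    rw [Real.rpow_sub hm, Real.rpow_one]
  have h6 : 0 < ((m + 1 : ℕ) : ℝ) ^ β := Real.rpow_pos_of_pos hm β
  rw [h4, h5]
  have h7 : ((m + 1 : ℕ) : ℝ) ^ β * (1 + (-1 / ((m + 1 : ℕ) : ℝ))) ^ β ≤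
      ((m + 1 : ℕ) : ℝ) ^ β * (1 + β * (-1 / ((m + 1 : ℕ) : ℝ))) := by gcongr
  have h8 : ((m + 1 : ℕ) : ℝ) ^ β * (1 + β * (-1 / ((m + 1 : ℕ) : ℝ))) =
      ((m + 1 : ℕ) : ℝ) ^ β - β * (((m + 1 : ℕ) : ℝ) ^ β / ((m + 1 : ℕ) : ℝ)) := by
    field_simp
    ring
  linarith

theorem step_lower (β : ℝ) (hβ0 : 0 < β) (hβ1 : β ≤ 1) (m : ℕ) (hm0 : 0 < m) :
    ((m + 1 : ℕ) : ℝ) ^ β - (m : ℝ) ^ β ≤ β * (m : ℝ) ^ (β - 1) := by
  have hm : (0 : ℝ) < (m : ℝ) := by exact_mod_cast hm0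
  have h1 : ((m + 1 : ℕ) : ℝ) = (m : ℝ) * (1 + (1 / (m : ℝ))) := by
    field_simp
    push_cast
    ring
  have h2 : (-1 : ℝ) ≤ 1 / (m : ℝ) := by
    have : 0 < 1 / (m : ℝ) := by positivity
    linarith
  have h3 := rpow_one_add_le_one_add_mul_self h2 hβ0.le hβ1
  have h4 : ((m + 1 : ℕ) : ℝ) ^ β = (m : ℝ) ^ β * (1 + (1 / (m : ℝ))) ^ β := by
    rw [← Real.mul_rpow hm.le (by positivity), ← h1]
  have h5 : (m : ℝ) ^ (β - 1) = (m : ℝ) ^ β / (m : ℝ) := by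
    rw [Real.rpow_sub hm, Real.rpow_one]
  have h6 : 0 < (m : ℝ) ^ β := Real.rpow_pos_of_pos hm β
  rw [h4, h5]
  have h7 : (m : ℝ) ^ β * (1 + (1 / (m : ℝ))) ^ β ≤ (m : ℝ) ^ β * (1 + β * (1 / (m : ℝ))) := by
    gcongr
  have h8 : (m : ℝ) ^ β * (1 + β * (1 / (m : ℝ))) = (m : ℝ) ^ β + β * ((m : ℝ) ^ β / (m : ℝ)) := by
    field_simp
  linarith

theorem Sw_upper (σ : ℝ) (h0 : 0 ≤ σ) (h1 : σ < 1) (N : ℕ) :
    Sw σ (Finset.Icc 1 N) ≤ (N : ℝ) ^ (1 - σ) / (1 - σ) := by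
  have hβ : 0 < 1 - σ := by linarith
  rw [le_div_iff₀ hβ]
  induction N with
  | zero =>
    simp [Sw]
    positivity
  | succ N ih =>
    have h2 : Sw σ (Finset.Icc 1 (N + 1)) = Sw σ (Finset.Icc 1 N) + ((N + 1 : ℕ) : ℝ) ^ (-σ) := by
      unfold Sw
      rw [Finset.sum_Icc_succ_top (by omega)]
    have h3 := step_upper (1 - σ) hβ (by linarith) N
    rw [show 1 - σ - 1 = -σ by ring] at h3
    rw [h2, add_mul]
    linarith

theorem Sw_lower (σ : ℝ) (h0 : 0 ≤ σ) (h1 : σ < 1) (N : ℕ) :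
    ((N : ℝ) ^ (1 - σ) - 1) / (1 - σ) ≤ Sw σ (Finset.Icc 1 N) := by
  have hβ : 0 < 1 - σ := by linarith
  have key : (((N + 1 : ℕ) : ℝ) ^ (1 - σ) - 1) ≤ Sw σ (Finset.Icc 1 N) * (1 - σ) := by
    induction N with
    | zero => simp [Sw]
    | succ N ih =>
      have h2 : Sw σ (Finset.Icc 1 (N + 1)) =
          Sw σ (Finset.Icc 1 N) + ((N + 1 : ℕ) : ℝ) ^ (-σ) := by
        unfold Sw
        rw [Finset.sum_Icc_succ_top (by omega)]
      have h3 := step_lower (1 - σ) hβ (by linarith) (N + 1) (Nat.succ_pos N)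
      rw [show 1 - σ - 1 = -σ by ring] at h3
      rw [h2, add_mul]
      linarith
  rw [div_le_iff₀ hβ]
  refine le_trans ?_ key
  have : (N : ℝ) ^ (1 - σ) ≤ ((N + 1 : ℕ) : ℝ) ^ (1 - σ) := by
    apply Real.rpow_le_rpow (by positivity) _ hβ.le
    push_cast
    linarith
  linarith

theorem Sw_dvd (σ : ℝ) (h0 : 0 ≤ σ) (h1 : σ < 1) (N d : ℕ) (hd : 0 < d) :
    Sw σ ((Finset.Icc 1 N).filter (fun m => d ∣ m)) ≤
      1 / (d : ℝ) * ((N : ℝ) ^ (1 - σ) / (1 - σ)) := by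
  have hβ : 0 < 1 - σ := by linarith
  have hd' : (0 : ℝ) < d := by exact_mod_cast hd
  have h2 : Sw σ ((Finset.Icc 1 N).filter (fun m => d ∣ m)) =
      (d : ℝ) ^ (-σ) * Sw σ (Finset.Icc 1 (N / d)) := by
    unfold Sw
    rw [Finset.mul_sum]
    symm
    apply Finset.sum_bij (fun k _ => d * k)
    · intro k hk
      rw [Finset.mem_Icc] at hk
      rw [Finset.mem_filter, Finset.mem_Icc]
      have h3 : d * k ≤ N := (Nat.mul_le_mul_left d hk.2).trans (Nat.mul_div_le N d)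
      exact ⟨⟨Nat.mul_pos hd hk.1, h3⟩, dvd_mul_right _ _⟩
    · intro a _ b _ hab
      exact Nat.eq_of_mul_eq_mul_left hd hab
    · intro v hv
      rw [Finset.mem_filter, Finset.mem_Icc] at hv
      obtain ⟨⟨h3, h4⟩, k, rfl⟩ := hv
      refine ⟨k, ?_, rfl⟩
      rw [Finset.mem_Icc]
      refine ⟨Nat.pos_of_ne_zero (by rintro rfl; simp at h3), ?_⟩
      rw [Nat.le_div_iff_mul_le hd, mul_comm]; exact h4
    · intro k _
      push_cast
      rw [Real.mul_rpow hd'.le (by positivity)]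
  rw [h2]
  have h3 := Sw_upper σ h0 h1 (N / d)
  have h4 : ((N / d : ℕ) : ℝ) ^ (1 - σ) ≤ ((N : ℝ) / d) ^ (1 - σ) :=
    Real.rpow_le_rpow (by positivity) Nat.cast_div_le hβ.le
  have h5 : ((N : ℝ) / d) ^ (1 - σ) = (N : ℝ) ^ (1 - σ) / (d : ℝ) ^ (1 - σ) :=
    Real.div_rpow (by positivity) hd'.le _
  have h6 : (d : ℝ) ^ (-σ) / (d : ℝ) ^ (1 - σ) = 1 / d := by
    rw [← Real.rpow_sub hd', show -σ - (1 - σ) = -1 by ring, Real.rpow_neg_one, one_div]
  have h7 : 0 < (d : ℝ) ^ (-σ) := Real.rpow_pos_of_pos hd' _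
  calc (d : ℝ) ^ (-σ) * Sw σ (Finset.Icc 1 (N / d))
      ≤ (d : ℝ) ^ (-σ) * (((N : ℝ) ^ (1 - σ) / (d : ℝ) ^ (1 - σ)) / (1 - σ)) := by
        rw [← h5]
        gcongr
        exact h3.trans (by gcongr)
    _ = ((d : ℝ) ^ (-σ) / (d : ℝ) ^ (1 - σ)) * ((N : ℝ) ^ (1 - σ) / (1 - σ)) := by ring
    _ = _ := by rw [h6]

/-- lift of a rough number. -/
def wU (P l u i : ℕ) : ℕ := u % P + (l * (u / P) + i) * P

theorem wU_coprime {P l u i : ℕ} (h : Nat.Coprime u P) : Nat.Coprime (wU P l u i) P := by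
  unfold wU
  rw [Nat.coprime_add_mul_right_left]
  have h2 : u % P + P * (u / P) = u := Nat.mod_add_div u P
  rw [← h2, Nat.coprime_add_mul_left_left] at h
  exact h

theorem wU_le {P l u i : ℕ} (hl : 1 ≤ l) (hi : i < l) : wU P l u i ≤ l * (u + P) := by
  unfold wU
  have h2 : u % P + P * (u / P) = u := Nat.mod_add_div u P
  have h3 : u % P ≤ l * (u % P) := Nat.le_mul_of_pos_left _ hl
  have h4 : i * P ≤ l * P := Nat.mul_le_mul_right P hi.le
  calc u % P + (l * (u / P) + i) * P = u % P + l * (P * (u / P)) + i * P := by ring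
    _ ≤ l * (u % P) + l * (P * (u / P)) + l * P := by omega
    _ = l * (u % P + P * (u / P) + P) := by ring
    _ = l * (u + P) := by rw [h2]

theorem le_wU {P l u i : ℕ} (hP : 0 < P) : l * u ≤ wU P l u i + l * P := by
  unfold wU
  have h2 : u % P + P * (u / P) = u := Nat.mod_add_div u P
  have h3 : u % P ≤ P := (Nat.mod_lt u hP).le
  calc l * u = l * (u % P) + l * (P * (u / P)) := by rw [← mul_add, h2]
    _ ≤ l * P + l * (P * (u / P)) := by gcongr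
    _ ≤ u % P + (l * (u / P) + i) * P + l * P := by
        have : (l * (u / P) + i) * P = l * (P * (u / P)) + i * P := by ring
        rw [this]
        omega

theorem wU_inj {P l u i u' i' : ℕ} (hP : 0 < P) (hi : i < l) (hi' : i' < l)
    (h : wU P l u i = wU P l u' i') : u = u' ∧ i = i' := by
  unfold wU at h
  have r := Nat.mod_lt u hP
  have r' := Nat.mod_lt u' hP
  have e1 : (u % P + (l * (u / P) + i) * P) % P = u % P := by
    rw [Nat.add_mul_mod_self_right, Nat.mod_mod]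
  have e2 : (u' % P + (l * (u' / P) + i') * P) % P = u' % P := by
    rw [Nat.add_mul_mod_self_right, Nat.mod_mod]
  have e3 : (u % P + (l * (u / P) + i) * P) / P = l * (u / P) + i := by
    rw [Nat.add_mul_div_right _ _ hP, Nat.div_eq_of_lt r, zero_add]
  have e4 : (u' % P + (l * (u' / P) + i') * P) / P = l * (u' / P) + i' := by
    rw [Nat.add_mul_div_right _ _ hP, Nat.div_eq_of_lt r', zero_add]
  have h1 : u % P = u' % P := by rw [← e1, h, e2]
  have h2 : l * (u / P) + i = l * (u' / P) + i' := by rw [← e3, h, e4]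
  have hl : 0 < l := by omega
  have h3 : u / P = u' / P := by
    have f1 : (l * (u / P) + i) / l = u / P := by
      rw [Nat.mul_add_div hl, Nat.div_eq_of_lt hi, add_zero]
    have f2 : (l * (u' / P) + i') / l = u' / P := by
      rw [Nat.mul_add_div hl, Nat.div_eq_of_lt hi', add_zero]
    rw [← f1, h2, f2]
  rw [h3] at h2
  refine ⟨?_, by omega⟩
  rw [← Nat.mod_add_div u P, ← Nat.mod_add_div u' P, h1, h3]

/-- The transfer of primitive sets. -/
theorem transfer (σ : ℝ) (h0 : 0 ≤ σ) (h1 : σ < 1) (y K n0 n l : ℕ) (hy : 2 ≤ y)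
    (P M : ℕ) (hP : P = y.factorial) (hM : M = P ^ K)
    (hn0 : (y + 1) * (P * M) < n0) (hl : 1 ≤ l) (hln : l * (n0 + P * M) ≤ n)
    (A : Finset ℕ) (hA : A ⊆ Finset.Icc 1 n0) (hprim : Prim A)
    (hA1 : ∀ a ∈ A, 2 * n0 < y * a) (hA2 : ∀ a ∈ A, Nat.Coprime (a / Nat.gcd a M) P) :
    ∃ B : Finset ℕ, B ⊆ Finset.Icc 1 n ∧ Prim B ∧
      (l : ℝ) ^ (1 - σ) * (1 - (P * M * y : ℝ) / (2 * n0)) * Sw σ A ≤ Sw σ B := by
  classical
  have hP0 : 0 < P := by rw [hP]; exact Nat.factorial_pos y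
  have hM0 : 0 < M := by rw [hM]; positivity
  have hn00 : 0 < n0 := by omega
  let V : ℕ → ℕ := fun a => Nat.gcd a M
  let Φ : ℕ × ℕ → ℕ := fun q => wU P l (q.1 / V q.1) q.2 * V q.1
  let I : Finset (ℕ × ℕ) := A ×ˢ Finset.range l
  have hVdvd : ∀ a, V a ∣ M := fun a => Nat.gcd_dvd_right a M
  have hVpos : ∀ a, 0 < V a := fun a => Nat.gcd_pos_of_pos_right a hM0
  have hVle : ∀ a, V a ≤ M := fun a => Nat.le_of_dvd hM0 (hVdvd a)
  have hdecomp : ∀ a, a / V a * V a = a := fun a => Nat.div_mul_cancel (Nat.gcd_dvd_left a M)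
  have hcop : ∀ q ∈ I, Nat.Coprime (wU P l (q.1 / V q.1) q.2) P := by
    intro q hq
    exact wU_coprime (hA2 q.1 (Finset.mem_product.1 hq).1)
  have hcopM : ∀ q ∈ I, Nat.Coprime (wU P l (q.1 / V q.1) q.2) M := by
    intro q hq
    rw [hM]
    exact (hcop q hq).pow_right K
  have hgcd : ∀ q ∈ I, Nat.gcd (Φ q) M = V q.1 := by
    intro q hq
    show Nat.gcd (wU P l (q.1 / V q.1) q.2 * V q.1) M = V q.1
    rw [(hcopM q hq).gcd_mul_left_cancel]
    exact Nat.gcd_eq_left (hVdvd q.1)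
  have hup : ∀ q ∈ I, Φ q ≤ l * (q.1 + P * M) := by
    intro q hq
    have hi : q.2 < l := Finset.mem_range.1 (Finset.mem_product.1 hq).2
    calc wU P l (q.1 / V q.1) q.2 * V q.1 ≤ (l * (q.1 / V q.1 + P)) * V q.1 :=
          Nat.mul_le_mul_right _ (wU_le hl hi)
      _ = l * (q.1 / V q.1 * V q.1 + P * V q.1) := by ring
      _ = l * (q.1 + P * V q.1) := by rw [hdecomp]
      _ ≤ l * (q.1 + P * M) := by
          have := hVle q.1
          gcongr
  have hlow : ∀ q ∈ I, l * q.1 ≤ Φ q + l * (P * M) := by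
    intro q hq
    calc l * q.1 = (l * (q.1 / V q.1)) * V q.1 := by rw [mul_assoc, hdecomp]
      _ ≤ (wU P l (q.1 / V q.1) q.2 + l * P) * V q.1 := Nat.mul_le_mul_right _ (le_wU hP0)
      _ = Φ q + l * (P * V q.1) := by show _ = wU P l (q.1 / V q.1) q.2 * V q.1 + _; ring
      _ ≤ Φ q + l * (P * M) := by
          have := hVle q.1
          gcongr
  have hbd : ∀ q ∈ I, 1 ≤ q.1 ∧ q.1 ≤ n0 := by
    intro q hq
    exact Finset.mem_Icc.1 (hA (Finset.mem_product.1 hq).1)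
  have hbig : ∀ q ∈ I, 2 * n0 < y * q.1 := fun q hq => hA1 q.1 (Finset.mem_product.1 hq).1
  have hΦpos : ∀ q ∈ I, 0 < Φ q := by
    intro q hq
    have h2 := hlow q hq
    have h3 := hbig q hq
    by_contra hcon
    push Not at hcon
    have h4 : Φ q = 0 := by omega
    rw [h4, zero_add] at h2
    have h5 : q.1 ≤ P * M := Nat.le_of_mul_le_mul_left h2 hl
    have h6 : y * q.1 ≤ y * (P * M) := Nat.mul_le_mul_left y h5
    nlinarith
  have hinj : Set.InjOn Φ (I : Set (ℕ × ℕ)) := by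
    intro q hq q' hq' hqq
    have hv : V q.1 = V q'.1 := by rw [← hgcd q hq, ← hgcd q' hq', hqq]
    have hw : wU P l (q.1 / V q.1) q.2 = wU P l (q'.1 / V q'.1) q'.2 := by
      have h2 : wU P l (q.1 / V q.1) q.2 * V q.1 = wU P l (q'.1 / V q'.1) q'.2 * V q'.1 := hqq
      rw [← hv] at h2 ⊢
      exact Nat.eq_of_mul_eq_mul_right (hVpos _) h2
    have hi : q.2 < l := Finset.mem_range.1 (Finset.mem_product.1 hq).2
    have hi' : q'.2 < l := Finset.mem_range.1 (Finset.mem_product.1 hq').2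
    obtain ⟨e1, e2⟩ := wU_inj hP0 hi hi' hw
    apply Prod.ext
    · rw [← hdecomp q.1, ← hdecomp q'.1, e1, hv]
    · exact e2
  refine ⟨I.image Φ, ?_, ?_, ?_⟩
  · intro m hm
    rw [Finset.mem_image] at hm
    obtain ⟨q, hq, rfl⟩ := hm
    rw [Finset.mem_Icc]
    refine ⟨hΦpos q hq, (hup q hq).trans (le_trans ?_ hln)⟩
    have := (hbd q hq).2
    gcongr
  · intro m1 hm1 m2 hm2 hdvd
    rw [Finset.mem_image] at hm1 hm2
    obtain ⟨q1, hq1, rfl⟩ := hm1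
    obtain ⟨q2, hq2, rfl⟩ := hm2
    obtain ⟨r, hr⟩ := hdvd
    have hr0 : 0 < r := by
      rcases Nat.eq_zero_or_pos r with h | h
      · rw [h, mul_zero] at hr
        have := hΦpos q2 hq2
        omega
      · exact h
    -- `r < y`
    have hry : r < y := by
      by_contra hcon
      push Not at hcon
      have h2 : Φ q1 * y ≤ Φ q2 := by rw [hr]; exact Nat.mul_le_mul_left _ hcon
      have h3 := hup q2 hq2
      have h4 := hlow q1 hq1
      have h5 := hbig q1 hq1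
      have h6 := (hbd q2 hq2).2
      have h7 : l * (q2.1 + P * M) ≤ l * (n0 + P * M) := by gcongr
      have h8 : y * (l * q1.1) ≤ y * (Φ q1 + l * (P * M)) := Nat.mul_le_mul_left y h4
      have h9 : l * (2 * n0 + 1) ≤ l * (y * q1.1) := Nat.mul_le_mul_left l h5
      have h10 : l * (2 * n0 + 1) ≤ l * (n0 + P * M) + l * (y * (P * M)) := by
        calc l * (2 * n0 + 1) ≤ l * (y * q1.1) := h9
          _ = y * (l * q1.1) := by ring
          _ ≤ y * (Φ q1 + l * (P * M)) := h8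
          _ = Φ q1 * y + l * (y * (P * M)) := by ring
          _ ≤ l * (n0 + P * M) + l * (y * (P * M)) := by
              have := h2.trans (h3.trans h7)
              omega
      have h11 : 2 * n0 + 1 ≤ n0 + P * M + y * (P * M) := by
        rw [← mul_add] at h10
        exact Nat.le_of_mul_le_mul_left h10 hl
      nlinarith
    have hrP : r ∣ P := by rw [hP]; exact Nat.dvd_factorial hr0 hry.le
    have hVM : ∀ q ∈ I, ∀ q' ∈ I, Nat.Coprime (wU P l (q.1 / V q.1) q.2) (V q'.1) := by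
      intro q hq q' _
      exact Nat.Coprime.coprime_dvd_right (hVdvd q'.1) (hcopM q hq)
    have hr2 : wU P l (q2.1 / V q2.1) q2.2 * V q2.1 =
        wU P l (q1.1 / V q1.1) q1.2 * V q1.1 * r := hr
    have d1 : wU P l (q1.1 / V q1.1) q1.2 ∣ wU P l (q2.1 / V q2.1) q2.2 := by
      apply (hVM q1 hq1 q2 hq2).dvd_of_dvd_mul_right
      rw [hr2, mul_assoc]
      exact dvd_mul_right _ _
    have d2 : wU P l (q2.1 / V q2.1) q2.2 ∣ wU P l (q1.1 / V q1.1) q1.2 := by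
      apply (hVM q2 hq2 q1 hq1).dvd_of_dvd_mul_right
      apply (Nat.Coprime.coprime_dvd_right hrP (hcop q2 hq2)).dvd_of_dvd_mul_right
      rw [← hr2]
      exact dvd_mul_right _ _
    have hww := Nat.dvd_antisymm d1 d2
    have hi1 : q1.2 < l := Finset.mem_range.1 (Finset.mem_product.1 hq1).2
    have hi2 : q2.2 < l := Finset.mem_range.1 (Finset.mem_product.1 hq2).2
    obtain ⟨e1, e2⟩ := wU_inj hP0 hi1 hi2 hww
    have hwpos : 0 < wU P l (q1.1 / V q1.1) q1.2 := by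
      have := hΦpos q1 hq1
      exact Nat.pos_of_ne_zero (fun h => by
        have h2 : Φ q1 = 0 := by show wU P l (q1.1 / V q1.1) q1.2 * V q1.1 = 0; rw [h, zero_mul]
        omega)
    have hV21 : V q2.1 = V q1.1 * r := by
      rw [← hww, mul_assoc] at hr2
      exact Nat.eq_of_mul_eq_mul_left hwpos hr2
    have ha : q1.1 ∣ q2.1 := by
      refine ⟨r, ?_⟩
      rw [← hdecomp q2.1, ← e1, hV21, ← mul_assoc, hdecomp]
    have haa := hprim q1.1 (Finset.mem_product.1 hq1).1 q2.1 (Finset.mem_product.1 hq2).1 ha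
    have : q1 = q2 := Prod.ext haa e2
    rw [this]
  · -- the weight
    have h2 : Sw σ (I.image Φ) = ∑ q ∈ I, ((Φ q : ℕ) : ℝ) ^ (-σ) := by
      unfold Sw
      rw [Finset.sum_image hinj]
    rw [h2]
    have hl0 : (0 : ℝ) < l := by exact_mod_cast hl
    have hn0r : (0 : ℝ) < n0 := by exact_mod_cast hn00
    have hPM : (0 : ℝ) ≤ (P : ℝ) * M := by positivity
    have h3 : ∀ q ∈ I, (l : ℝ) ^ (-σ) * (1 - (P * M * y : ℝ) / (2 * n0)) * (q.1 : ℝ) ^ (-σ) ≤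
        ((Φ q : ℕ) : ℝ) ^ (-σ) := by
      intro q hq
      have ha0 : (0 : ℝ) < q.1 := by exact_mod_cast (hbd q hq).1
      have hΦ0 : (0 : ℝ) < (Φ q : ℕ) := by exact_mod_cast hΦpos q hq
      have e1 : ((Φ q : ℕ) : ℝ) ≤ l * q.1 * (1 + P * M / q.1) := by
        have e2 : ((Φ q : ℕ) : ℝ) ≤ l * (q.1 + P * M) := by exact_mod_cast hup q hq
        refine e2.trans (le_of_eq ?_)
        field_simp
      have e3 : (l * q.1 * (1 + P * M / q.1) : ℝ) ^ (-σ) ≤ ((Φ q : ℕ) : ℝ) ^ (-σ) :=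
        Real.rpow_le_rpow_of_nonpos hΦ0 e1 (by linarith)
      refine le_trans ?_ e3
      have e4 : (1 : ℝ) ≤ 1 + P * M / q.1 := by
        have : 0 ≤ (P : ℝ) * M / q.1 := by positivity
        linarith
      rw [Real.mul_rpow (by positivity) (by positivity), Real.mul_rpow hl0.le ha0.le]
      have e5 : 1 - (P * M * y : ℝ) / (2 * n0) ≤ (1 + P * M / q.1 : ℝ) ^ (-σ) := by
        have e6 : (1 + P * M / q.1 : ℝ) ^ (-1 : ℝ) ≤ (1 + P * M / q.1 : ℝ) ^ (-σ) :=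
          Real.rpow_le_rpow_of_exponent_le e4 (by linarith)
        refine le_trans ?_ e6
        rw [Real.rpow_neg_one]
        have e7 : (P : ℝ) * M / q.1 ≤ (P * M * y : ℝ) / (2 * n0) := by
          rw [div_le_div_iff₀ ha0 (by positivity)]
          have e8 : (2 * n0 : ℝ) ≤ y * q.1 := by exact_mod_cast (hbig q hq).le
          calc (P : ℝ) * M * (2 * n0) ≤ P * M * (y * q.1) := by gcongr
            _ = P * M * y * q.1 := by ring
        have e9 : 1 - (P : ℝ) * M / q.1 ≤ (1 + P * M / q.1 : ℝ)⁻¹ := by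
          rw [← one_div, le_div_iff₀ (by linarith)]
          nlinarith [sq_nonneg ((P : ℝ) * M / q.1)]
        linarith
      calc (l : ℝ) ^ (-σ) * (1 - (P * M * y : ℝ) / (2 * n0)) * (q.1 : ℝ) ^ (-σ)
          = (l : ℝ) ^ (-σ) * (q.1 : ℝ) ^ (-σ) * (1 - (P * M * y : ℝ) / (2 * n0)) := by ring
        _ ≤ (l : ℝ) ^ (-σ) * (q.1 : ℝ) ^ (-σ) * (1 + P * M / q.1 : ℝ) ^ (-σ) := by
            gcongr
    refine le_trans (le_of_eq ?_) (Finset.sum_le_sum h3)
    have h4 : ∑ q ∈ I, (l : ℝ) ^ (-σ) * (1 - (P * M * y : ℝ) / (2 * n0)) * (q.1 : ℝ) ^ (-σ) =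
        ∑ a ∈ A, ∑ i ∈ Finset.range l,
          (l : ℝ) ^ (-σ) * (1 - (P * M * y : ℝ) / (2 * n0)) * (a : ℝ) ^ (-σ) := by
      rw [Finset.sum_product]
    rw [h4]
    simp_rw [Finset.sum_const, Finset.card_range, nsmul_eq_mul]
    unfold Sw
    rw [Finset.mul_sum]
    apply Finset.sum_congr rfl
    intro a _
    have h5 : (l : ℝ) ^ (1 - σ) = l * (l : ℝ) ^ (-σ) := by
      rw [sub_eq_add_neg, Real.rpow_add hl0, Real.rpow_one]
    rw [h5]
    ring

end Pool.Agent.Q52.PrimLimit
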